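import Pool.Agent.H72.HRA.Defs

open MvPolynomial Module

namespace Pool.Agent.H72.HRA

open Pool.Agent.H72.HR
open Pool.Agent.H72.BF (RP Gf AlgB)

/-! Targets of the board hrk_modules, part B (algebraic coefficients). -/

/-- values of the derivatives of the basis polynomials -/
def T_VALA : Prop := ∀ (ρ τ : Type) [Fintype ρ] [Fintype τ] [DecidableEq ρ] [DecidableEq τ]
  (c h L T1 : ℕ) (ν : Fin c → τ) (k : ρ → Fin c → ℂ) (E : Fin c → τ → ℂ) (u : Ux ρ τ h L T1)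
  (l : List (ρ ⊕ τ)) (g : ρ ⊕ τ → ℂ),
  eval (pt kap g) (l.foldr (fun a f => dv kap (omC ν k E a) f) (bas u)) =
    (∏ i, (Gf 1 (-(kmC ν k u i)) (rp u i) (l.count (Sum.inl i))).eval (g (Sum.inl i))) *
    (∏ a, gaC ν E u a ^ l.count (Sum.inr a)) *
    Complex.exp (∑ a, ((u.2 a : ℕ) : ℂ) * g (Sum.inr a))

/-- Liouville inequality for the values, algebraic coefficients -/
def T_LVLA : Prop := ∀ (n : ℕ) (lam : Fin n → ℂ), (∀ k, IsAlgebraic ℚ (Complex.exp (lam k))) →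
  ∀ (ρ τ : Type) [Fintype ρ] [Fintype τ] [DecidableEq ρ] [DecidableEq τ] (c δ : ℕ)
  (q : Fin n → ρ → τ → ℤ) (C0 : ℝ), ∃ (k0 : ℕ) (c0 : ℝ), 0 < c0 ∧
  ∀ A B Q : ℕ, A ≤ Q → 1 ≤ B → B ≤ Q → ∃ g0 : ℕ, ∀ g : ℕ, g0 ≤ g → ∃ h0 : ℕ, ∀ h : ℕ, h0 ≤ h →
  ∀ (ν : Fin c → τ) (k : ρ → Fin c → ℂ) (E : Fin c → τ → ℂ),
  (∀ i l, AlgB δ (Real.exp (C0 * h)) (k i l)) → (∀ l a, AlgB δ (Real.exp (C0 * h)) (E l a)) →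
  ∀ (p : Ux ρ τ h (g ^ (Q - B)) (g ^ (Q - A)) → ℤ) (Z : ℝ), 1 ≤ Z → (∀ u, |(p u : ℝ)| ≤ Z) →
  ∀ (x : ρ → ℕ) (y : τ → ℕ) (s : ρ → ℤ), ∑ i, x i + ∑ a, y a ≤ g ^ Q →
  (∀ i, 0 ≤ s i ∧ s i ≤ h * g ^ A) → vlC lam q ν k E p x y s ≠ 0 →
  1 ≤ Z ^ k0 * Real.exp (c0 * (h * g ^ Q)) * ‖vlC lam q ν k E p x y s‖

/-- size of the coefficients of the linear forms -/
def T_CFUA : Prop := ∀ (n : ℕ) (lam : Fin n → ℂ) (ρ τ : Type) [Fintype ρ] [Fintype τ]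
  [DecidableEq ρ] [DecidableEq τ] (c w : ℕ) (q : Fin n → ρ → τ → ℤ) (C0 : ℝ),
  ∃ c0 : ℝ, 0 < c0 ∧ ∀ A B Q : ℕ, A ≤ Q → 1 ≤ B → B ≤ Q → ∃ g0 : ℕ, ∀ g : ℕ, g0 ≤ g →
  ∃ h0 : ℕ, ∀ h : ℕ, h0 ≤ h →
  ∀ (ν : Fin c → τ) (k : ρ → Fin c → ℂ) (E : Fin c → τ → ℂ),
  (∀ i l, ‖k i l‖ ≤ Real.exp (C0 * h)) → (∀ l a, ‖E l a‖ ≤ Real.exp (C0 * h)) →
  ∀ (I : Fin w → ρ) (y : τ → ℕ) (z : Fin w → ℕ) (x : ρ → ℕ)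
  (u : Ux ρ τ h (g ^ (Q - B)) (g ^ (Q - A))), (∀ a, y a ≤ g ^ Q) → (∀ j, z j ≤ g ^ Q) →
  ‖cfuC (4 * (h * g ^ A)) lam q ν k E I y z x u‖ ≤ Real.exp (c0 * (h * g ^ Q))

/-- the values are small when the linear forms are small -/
def T_SMLA : Prop := ∀ (n : ℕ) (lam : Fin n → ℂ) (ρ τ : Type) [Fintype ρ] [Fintype τ]
  [DecidableEq ρ] [DecidableEq τ] (c w : ℕ) (q : Fin n → ρ → τ → ℤ) (C0 : ℝ),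
  ∃ c0 : ℝ, 0 < c0 ∧ ∀ A B Q : ℕ, A ≤ Q → 1 ≤ B → B ≤ Q → ∃ g0 : ℕ, ∀ g : ℕ, g0 ≤ g →
  ∃ h0 : ℕ, ∀ h : ℕ, h0 ≤ h →
  ∀ (ν : Fin c → τ) (k : ρ → Fin c → ℂ) (E : Fin c → τ → ℂ),
  (∀ l l', E l (ν l') = if l = l' then 1 else 0) →
  (∀ i l, ‖k i l‖ ≤ Real.exp (C0 * h)) → (∀ l a, ‖E l a‖ ≤ Real.exp (C0 * h)) →
  ∀ (I : Fin w → ρ) (b : ρ → Fin w → ℂ) (ε : ℝ), (∀ i j, ‖b i j‖ ≤ Real.exp (C0 * h)) →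
  0 ≤ ε → ε ≤ 1 → (∀ i l, ‖yyC lam q k E i l - ∑ j, b i j * yyC lam q k E (I j) l‖ ≤ ε) →
  ∀ (p : Ux ρ τ h (g ^ (Q - B)) (g ^ (Q - A)) → ℤ) (Z δ : ℝ) (X : ℕ), 1 ≤ Z → 0 ≤ δ →
  (∀ u, |(p u : ℝ)| ≤ Z) →
  (∀ (y : τ → ℕ) (z : Fin w → ℕ) (x : ρ → ℕ), (∀ l, y (ν l) = 0) → (∀ a, y a ≤ g ^ Q) →
    (∀ j, z j ≤ g ^ Q) → (∀ i, x i < X * (h * g ^ Q)) →
    ‖∑ u, (p u : ℂ) * cfuC (4 * (h * g ^ A)) lam q ν k E I y z x u‖ ≤ δ) →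
  ∀ (x : ρ → ℕ) (y : τ → ℕ) (s : ρ → ℤ), ∑ i, x i + ∑ a, y a ≤ g ^ Q →
  (∀ i, 0 ≤ s i ∧ s i ≤ h * g ^ A) →
  ‖vlC lam q ν k E p x y s‖ ≤
    Real.exp (c0 * (h * g ^ Q)) * (δ + Z * Real.exp (-(X * (h * g ^ Q))) + Z * ε)

/-- the auxiliary polynomial, algebraic coefficients -/
def T_ANA : Prop := ∀ (n : ℕ) (lam : Fin n → ℂ), (∀ k, IsAlgebraic ℚ (Complex.exp (lam k))) →
  ∀ (ρ τ : Type) [Fintype ρ] [Fintype τ] [DecidableEq ρ] [DecidableEq τ] (c w δ : ℕ)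
  (q : Fin n → ρ → τ → ℤ) (C0 : ℝ) (A B Q : ℕ), w ≤ c → A ≤ Q → 1 ≤ B → B ≤ Q →
  Fintype.card ρ * B + Fintype.card τ * A + 1 ≤ (c - w) * Q →
  ∃ g0 : ℕ, ∀ g : ℕ, g0 ≤ g → ∃ (C3 : ℝ) (h0 : ℕ), ∀ h : ℕ, h0 ≤ h →
  ∀ (ν : Fin c → τ) (k : ρ → Fin c → ℂ) (E : Fin c → τ → ℂ),
  (∀ l l', E l (ν l') = if l = l' then 1 else 0) →
  (∀ i l, AlgB δ (Real.exp (C0 * h)) (k i l)) → (∀ l a, AlgB δ (Real.exp (C0 * h)) (E l a)) →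
  ∀ (I : Fin w → ρ) (b : ρ → Fin w → ℂ), (∀ i j, ‖b i j‖ ≤ Real.exp (C0 * h)) →
  (∀ i l, ‖yyC lam q k E i l - ∑ j, b i j * yyC lam q k E (I j) l‖ ≤ Real.exp (-(C3 * h))) →
  ∃ P : MvPolynomial (ρ ⊕ τ) ℂ, P ≠ 0 ∧ P ∈ box (TT (h * g ^ (Q - B)) (g ^ (Q - A))) ∧
    ∀ s : ρ → ℤ, (∀ i, 0 ≤ s i ∧ s i ≤ h * g ^ A) → ∀ L : List (ρ ⊕ τ), L.length ≤ g ^ Q →
      eval (pt kap (gam lam q s)) (L.foldr (fun a f => dv kap (omC ν k E a) f) P) = 0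

/-- no relation with integer coefficients of size at most `A` -/
def IndC {J : Type} [Fintype J] (A : ℕ) (e : J → ℂ) : Prop :=
  ∀ m : J → ℤ, (∀ a, |m a| ≤ A) → ∑ a, (m a : ℂ) * e a = 0 → m = 0

/-- the torus part -/
def T_OBTC : Prop := ∀ (J : Type) [Fintype J] [DecidableEq J] (c T1 : ℕ), ∃ A : ℕ,
  ∀ (e : J → ℂ), IndC A e → ∀ Θ : Set (Fin c × J → ℤ), (∀ u ∈ Θ, ∀ x, |u x| ≤ T1) →
  ∀ U : Submodule ℚ (Fin c × J → ℚ), (∀ v, v ∈ U ↔ ∀ u ∈ Θ, ∑ x, (u x : ℚ) * v x = 0) →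
  ∀ X : Submodule ℂ (Fin c → ℂ), (∀ v ∈ U, (fun l => ∑ a, e a * ((v (l, a) : ℚ) : ℂ)) ∈ X) →
  finrank ℚ U ≤ Fintype.card J * finrank ℂ X

/-- the additive part: `ρ` independent short vectors -/
def T_OBAC : Prop := ∀ (J : Type) [Fintype J] [DecidableEq J] (l K : ℕ), ∃ A : ℕ,
  ∀ (e : J → ℂ), IndC A e → ∀ (m : ℕ) (v : Fin m → Fin l × J → ℤ), (∀ j x, |v j x| ≤ K) →
  LinearIndependent ℤ v → ∀ X : Submodule ℂ (Fin l → ℂ),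
  (∀ j, (fun p => ∑ a, e a * (v j (p, a) : ℂ)) ∈ X) → m ≤ Fintype.card J * finrank ℂ X

/-- FINITE FORM of the main theorem, algebraic coefficients -/
def T_FINA : Prop := ∀ (n : ℕ) (lam : Fin n → ℂ) (K : Set (Fin n)),
  (∀ k, IsAlgebraic ℚ (Complex.exp (lam k))) → MI lam K →
  ∀ (l c w δ : ℕ) (J' J : Type) [Fintype J'] [Fintype J] [DecidableEq J'] [DecidableEq J] (o : J)
  (q : Fin n → Fin l × J' → Fin c × J → ℤ) (m : ℤ) (C0 : ℝ), m ≠ 0 → w ≤ c →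
  c * Fintype.card J * w < l * Fintype.card J' * (c - w) →
  ∃ (A0 : ℕ) (C3 : ℝ) (h0 : ℕ), ∀ h : ℕ, h0 ≤ h →
  ∀ (e' : J' → ℂ) (e : J → ℂ) (A : Fin (n + 1) → Matrix (Fin l) (Fin c) ℂ),
  e o = 1 → IndC A0 e' → IndC A0 e →
  (∀ a, AlgB δ (Real.exp (C0 * h)) (e' a)) → (∀ a, AlgB δ (Real.exp (C0 * h)) (e a)) →
  (∀ a p j, AlgB δ (Real.exp (C0 * h)) (m * e' a * A 0 p j)) →
  (∀ (k : Fin n) (p : Fin l) (a' : J') (j : Fin c),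
    m * e' a' * A k.succ p j = ∑ a, q k (p, a') (j, a) * e a) →
  SemiC K A →
  ∀ (I : Fin w → Fin l) (b : Fin l → Fin w → ℂ), (∀ i j, ‖b i j‖ ≤ Real.exp (C0 * h)) →
  ¬ (∀ i j, ‖MvC lam A i j - ∑ x, b i x * MvC lam A (I x) j‖ ≤ Real.exp (-(C3 * h)))

/-- polynomials in algebraic numbers of bounded degree and height -/
def T_POL : Prop := ∀ (ι : Type) [Fintype ι] [DecidableEq ι] (δ D : ℕ), ∃ δ' c : ℕ,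
  ∀ (H : ℝ), 2 ≤ H → ∀ z : ι → ℂ, (∀ i, AlgB δ H (z i)) →
  ∀ Q : MvPolynomial ι ℤ, Q.totalDegree ≤ D → (∀ m, |((Q.coeff m : ℤ) : ℝ)| ≤ H) →
  AlgB δ' (H ^ c) (aeval z Q)

/-- the half rank theorem for algebraic coefficients -/
def T_HRA : Prop := T_FINA → HRA

/-- square pencils with nonzero determinant are semistable over `ℂ` -/
def T_DSSA : Prop := ∀ (n N : ℕ) (K : Set (Fin n)) (A : Fin (n + 1) → Matrix (Fin N) (Fin N) ℂ),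
  (Matrix.of (fun i j => (C (A 0 i j) : MvPolynomial (Fin n) ℂ) +
    ∑ k : Fin n, (open Classical in if k ∈ K then X k * C (A k.succ i j) else 0))).det ≠ 0 →
  SemiC K A

end Pool.Agent.H72.HRA
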