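import Pool.Agent.H72.HRA.HRM
import Pool.Agent.H72.BF.Assemble2
import Pool.Agent.H54.BF.ROOT
import Pool.Agent.H35.HR.ZE
import Pool.Agent.H35.HR.CLB
import Pool.Agent.H69.HRA.ANA
import Pool.Agent.H6.HRA.SMLA
import Pool.Agent.H6.HRA.SMLAf
import Pool.Agent.H20.HR.CFUA
import Pool.Agent.H20.HR.OBAC
import Pool.Agent.H46.HR.LVLA
import Pool.Agent.H46.HR.PIG
import Pool.Agent.H46.HR.POL
import Pool.Agent.H33.HRA.VALA
import Pool.Agent.H33.HR.LIB
import Pool.Agent.H81.HR.PAR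
import Pool.Agent.H90.HR.CHV
import Pool.Agent.H90.HR.FOL
import Pool.Agent.H33.HR.SLC
import Pool.Agent.H20.HR.NEF
import Pool.Agent.H46.HR.MUL
import Pool.Agent.H46.HR.WT

namespace Pool.Agent.H72.HRA

open Pool.Agent.H72.HR
open Pool.Agent

/-- zero estimate for finite zero sets -/
theorem slcAll : T_SLC := H33.HR.pf_SLC H20.HR.nef H46.HR.wt_target H46.HR.mul_target

/-- the half rank theorem with polynomial loss -/
theorem half_rank : HRA :=
  hrA H29.BF.pkg H54.BF.root H90.HR.fol H46.HR.pol_target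
    (finA H54.BF.root (H35.HR.zeT slcAll)
      (H69.HRA.ana H54.BF.root H46.HR.pig_target H33.HRA.pf_VALA H33.HR.pf_LIB
        H46.HR.lvla_target H20.HR.cfua H6.HRA.pf_smla)
      H81.HR.pf_PAR H20.HR.obtc H20.HR.obac H90.HR.chv H35.HR.clb H35.HR.shv)

end Pool.Agent.H72.HRA
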