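import Pool.Agent.H72.HR.Defs2

open MvPolynomial Module

namespace Pool.Agent.H72.HRA

open Pool.Agent.H72.HR
open Pool.Agent.H72.BF (RP Gf AlgB)

noncomputable section

/-! ### algebraic coefficients: the same objects with complex coefficients -/

section
variable {ρ τ : Type} [Fintype ρ] [Fintype τ] [DecidableEq ρ] [DecidableEq τ]

/-- the generating vectors of `W` -/
def omC {c : ℕ} (ν : Fin c → τ) (k : ρ → Fin c → ℂ) (E : Fin c → τ → ℂ) : ρ ⊕ τ → (ρ ⊕ τ → ℂ)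
  | Sum.inl i => Pi.single (Sum.inl i) 1 - ∑ l, Pi.single (Sum.inr (ν l)) (k i l)
  | Sum.inr a => Pi.single (Sum.inr a) 1 - ∑ l, Pi.single (Sum.inr (ν l)) (E l a)

/-- the vectors `y_i` -/
def yyC {n c : ℕ} (lam : Fin n → ℂ) (q : Fin n → ρ → τ → ℤ) (k : ρ → Fin c → ℂ)
    (E : Fin c → τ → ℂ) (i : ρ) (l : Fin c) : ℂ :=
  k i l + ∑ a, E l a * Lam lam q i a

variable {n c w h L T1 : ℕ}

def kmC (ν : Fin c → τ) (k : ρ → Fin c → ℂ) (u : Ux ρ τ h L T1) (i : ρ) : ℂ :=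
  ∑ l, k i l * ((u.2 (ν l) : ℕ) : ℂ)

def gaC (ν : Fin c → τ) (E : Fin c → τ → ℂ) (u : Ux ρ τ h L T1) (a : τ) : ℂ :=
  ((u.2 a : ℕ) : ℂ) - ∑ l, E l a * ((u.2 (ν l) : ℕ) : ℂ)

def ymC (lam : Fin n → ℂ) (q : Fin n → ρ → τ → ℤ) (ν : Fin c → τ) (k : ρ → Fin c → ℂ)
    (E : Fin c → τ → ℂ) (I : Fin w → ρ) (u : Ux ρ τ h L T1) (j : Fin w) : ℂ :=
  ∑ l, yyC lam q k E (I j) l * ((u.2 (ν l) : ℕ) : ℂ)

/-- the values of the derivatives of the auxiliary polynomial at the points `γ_s` -/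
def vlC (lam : Fin n → ℂ) (q : Fin n → ρ → τ → ℤ) (ν : Fin c → τ) (k : ρ → Fin c → ℂ)
    (E : Fin c → τ → ℂ) (p : Ux ρ τ h L T1 → ℤ) (x : ρ → ℕ) (y : τ → ℕ) (s : ρ → ℤ) : ℂ :=
  ∑ u, (p u : ℂ) * (∏ i, (Gf 1 (-(kmC ν k u i)) (rp u i) (x i)).eval (s i : ℂ)) *
    (∏ a, gaC ν E u a ^ y a) * Complex.exp (∑ i, (s i : ℂ) * th lam q u i)

def cfuC (ϱ : ℝ) (lam : Fin n → ℂ) (q : Fin n → ρ → τ → ℤ) (ν : Fin c → τ) (k : ρ → Fin c → ℂ)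
    (E : Fin c → τ → ℂ) (I : Fin w → ρ) (y : τ → ℕ) (z : Fin w → ℕ) (x : ρ → ℕ)
    (u : Ux ρ τ h L T1) : ℂ :=
  (∏ a, gaC ν E u a ^ y a) * (∏ j, ymC lam q ν k E I u j ^ z j) *
    ∏ i, (tc (rp u i) (th lam q u i) (x i) * (ϱ : ℂ) ^ x i)

end

section
variable {n l c : ℕ}

/-- value of the pencil -/
def MvC (lam : Fin n → ℂ) (A : Fin (n + 1) → Matrix (Fin l) (Fin c) ℂ) :
    Matrix (Fin l) (Fin c) ℂ :=
  fun p j => A 0 p j + ∑ k : Fin n, lam k * A k.succ p j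

/-- row vectors sent by the pencil into `U` -/
def XiC (K : Set (Fin n)) (A : Fin (n + 1) → Matrix (Fin l) (Fin c) ℂ)
    (U : Submodule ℂ (Fin c → ℂ)) : Submodule ℂ (Fin l → ℂ) :=
  (U.comap (Matrix.vecMulLinear (A 0))) ⊓
    ⨅ k ∈ K, U.comap (Matrix.vecMulLinear (A (Fin.succ k)))

/-- semistability over `ℂ` of the pencil `A_0 + ∑_{k ∈ K} X_k A_k` -/
def SemiC (K : Set (Fin n)) (A : Fin (n + 1) → Matrix (Fin l) (Fin c) ℂ) : Prop :=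
  ∀ U : Submodule ℂ (Fin c → ℂ),
    c * Module.finrank ℂ (XiC K A U) ≤ l * Module.finrank ℂ U

end

/-- THE HALF RANK THEOREM with polynomial loss, algebraic coefficients of degree at most `δ` and
height at most `H` -/
def HRA : Prop :=
  ∀ (n : ℕ) (lam : Fin n → ℂ) (K : Set (Fin n)), (∀ k, IsAlgebraic ℚ (Complex.exp (lam k))) →
    MI lam K → ∀ δ l c : ℕ, ∃ C : ℝ, 0 < C ∧ ∀ H : ℝ, 2 ≤ H →
    ∀ A : Fin (n + 1) → Matrix (Fin l) (Fin c) ℂ, (∀ k p j, AlgB δ H (A k p j)) →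
      SemiC K A → ∃ (m : ℕ) (I : Fin m → Fin l) (J : Fin m → Fin c), l * c ≤ m * (l + c) ∧
        1 ≤ H ^ C * ‖((MvC lam A).submatrix I J).det‖

end

end Pool.Agent.H72.HRA
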