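import Pool.Agent.H72.HRA.FIN2

open MvPolynomial Module

set_option linter.unusedSectionVars false

namespace Pool.Agent.H72.HRA

open Pool.Agent.H72.HR
open Pool.Agent.H72.BF (AlgB)

theorem IndC.mono {J : Type} [Fintype J] {A A' : ℕ} {e : J → ℂ} (h : IndC A e) (hA : A' ≤ A) :
    IndC A' e := by
  intro m hm hs
  exact h m (fun a => (hm a).trans (by exact_mod_cast hA)) hs

theorem IndC.ne_zero {J : Type} [Fintype J] [DecidableEq J] {A : ℕ} {e : J → ℂ} (h : IndC A e)
    (hA : 1 ≤ A) (a : J) : e a ≠ 0 := by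
  intro h0
  have h1 := h (Pi.single a 1) (fun b => by
    by_cases hb : b = a
    · subst hb; simp; exact_mod_cast hA
    · simp [Pi.single_apply, hb]) (by simp [Pi.single_apply, h0])
  have := congrFun h1 a
  simp at this

/-- obstruction inequalities -/
theorem obsC {n : ℕ} {lam : Fin n → ℂ} {K : Set (Fin n)} (hMI : MI lam K) {l c : ℕ} {J' J : Type}
    [Fintype J'] [Fintype J] [DecidableEq J'] [DecidableEq J]
    (q : Fin n → Fin l × J' → Fin c × J → ℤ) (m : ℤ) (hm : m ≠ 0) (T1 K1 AT AA : ℕ)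
    (hAT : ∀ (e : J → ℂ), IndC AT e → ∀ Θ : Set (Fin c × J → ℤ), (∀ u ∈ Θ, ∀ x, |u x| ≤ T1) →
      ∀ U : Submodule ℚ (Fin c × J → ℚ), (∀ v, v ∈ U ↔ ∀ u ∈ Θ, ∑ x, (u x : ℚ) * v x = 0) →
      ∀ X : Submodule ℂ (Fin c → ℂ),
      (∀ v ∈ U, (fun l => ∑ a, e a * ((v (l, a) : ℚ) : ℂ)) ∈ X) →
      finrank ℚ U ≤ Fintype.card J * finrank ℂ X)
    (hAA : ∀ (e : J' → ℂ), IndC AA e → ∀ (m : ℕ) (v : Fin m → Fin l × J' → ℤ),
      (∀ j x, |v j x| ≤ K1) → LinearIndependent ℤ v → ∀ X : Submodule ℂ (Fin l → ℂ),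
      (∀ j, (fun p => ∑ a, e a * (v j (p, a) : ℂ)) ∈ X) →
      m ≤ Fintype.card J' * finrank ℂ X)
    (e' : J' → ℂ) (e : J → ℂ) (A : Fin (n + 1) → Matrix (Fin l) (Fin c) ℂ)
    (hIe' : IndC AA e') (hIe : IndC AT e)
    (hrel : ∀ (k : Fin n) (p : Fin l) (a' : J') (j : Fin c),
      m * e' a' * A k.succ p j = ∑ a, q k (p, a') (j, a) * e a)
    (hSemi : SemiC K A) (k : Fin l × J' → Fin c → ℂ) (E : Fin c → Fin c × J → ℂ)
    (hk : k = fun i j => m * e' i.2 * A 0 i.1 j) (hE : E = fun j x => if x.1 = j then e x.2 else 0)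
    {T : (Fin l × J') ⊕ (Fin c × J) → ℕ} (hT : ∀ x, T (Sum.inr x) = T1)
    {L : Submodule ℂ ((Fin l × J') ⊕ (Fin c × J) → ℂ)} {Θ : Set ((Fin l × J') ⊕ (Fin c × J) → ℤ)}
    (hStd : Std kap T L Θ) {M : ℕ} (v : Fin M → Fin l × J' → ℤ)
    (hvG : ∀ j, v j ∈ Gs lam q L Θ) (hvK : ∀ j i, |v j i| ≤ K1) (hvli : LinearIndependent ℤ v) :
    c * M ≤ (l * Fintype.card J') *
        finrank ℂ (Submodule.map (piC k E) (Lie kap L Θ)) ∧
      c * finrank ℂ (Lie kap ⊥ Θ) ≤ (c * Fintype.card J) *
        finrank ℂ (Submodule.map (piC k E) (Lie kap L Θ)) := by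
  classical
  set cs := finrank ℂ (Submodule.map (piC k E) (Lie kap L Θ)) with hcs
  -- the torus part
  let Θ' : Set (Fin c × J → ℤ) := {u | ∃ u0 ∈ Θ, u = fun x => u0 (Sum.inr x)}
  let U : Submodule ℚ (Fin c × J → ℚ) :=
    { carrier := {v | ∀ u ∈ Θ', ∑ x, (u x : ℚ) * v x = 0}
      add_mem' := by
        intro a b ha hb u hu
        simp only [Pi.add_apply, mul_add, Finset.sum_add_distrib, ha u hu, hb u hu, add_zero]
      zero_mem' := by intro u _; simp
      smul_mem' := by
        intro a b hb u hu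
        have := hb u hu
        simp only [Pi.smul_apply, smul_eq_mul]
        calc ∑ x, (u x : ℚ) * (a * b x) = a * ∑ x, (u x : ℚ) * b x := by
              rw [Finset.mul_sum]; exact Finset.sum_congr rfl fun x _ => by ring
          _ = 0 := by rw [this, mul_zero] }
  have hU : ∀ v, v ∈ U ↔ ∀ u ∈ Θ', ∑ x, (u x : ℚ) * v x = 0 := fun v => Iff.rfl
  -- images of the rational torus vectors
  have hepsX : ∀ w ∈ U, (fun l => ∑ a, e a * ((w (l, a) : ℚ) : ℂ)) ∈
      Submodule.map (piC k E) (Lie kap L Θ) := by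
    intro w hw
    refine ⟨Sum.elim (fun _ => 0) (fun x => ((w x : ℚ) : ℂ)), ?_, ?_⟩
    · apply Lie_mono
      rw [mem_Lie_bot]
      refine ⟨?_, ?_⟩
      · rintro (i | a) hi
        · rfl
        · simp [kap] at hi
      · intro u hu
        have := (hU w).1 hw _ ⟨u, hu, rfl⟩
        rw [Fintype.sum_sum_type]
        simp only [Sum.elim_inl, mul_zero, Finset.sum_const_zero, zero_add, Sum.elim_inr]
        have e4 := congrArg (fun z : ℚ => (z : ℂ)) this
        simpa using e4
    · funext j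
      rw [piC_apply]
      simp only [Sum.elim_inl, mul_zero, Finset.sum_const_zero, zero_add, Sum.elim_inr, hE]
      rw [Fintype.sum_prod_type, Finset.sum_eq_single j]
      · simp
      · intro b _ hb
        simp [hb]
      · simp
  have h1 : finrank ℚ U ≤ Fintype.card J * cs := by
    apply hAT e hIe Θ' _ U hU _ hepsX
    rintro u ⟨u0, hu0, rfl⟩ x
    have := hStd.hT u0 hu0 (Sum.inr x)
    rw [hT] at this
    exact this
  have h2 : finrank ℂ (Lie kap ⊥ Θ) ≤ finrank ℚ U := by
    let F : ((Fin l × J') ⊕ (Fin c × J) → ℂ) →ₗ[ℂ] (Fin c × J → ℂ) :=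
      LinearMap.funLeft ℂ ℂ Sum.inr
    have e1 := finrank_map_add_inf F (Lie kap ⊥ Θ)
    have e2 : LinearMap.ker F ⊓ Lie kap ⊥ Θ = ⊥ := by
      rw [eq_bot_iff]
      rintro g ⟨hg, hg'⟩
      rw [SetLike.mem_coe, LinearMap.mem_ker] at hg
      rw [SetLike.mem_coe, mem_Lie_bot] at hg'
      rw [Submodule.mem_bot]
      funext x
      rcases x with i | a
      · exact hg'.1 (Sum.inl i) rfl
      · exact congrFun hg a
    rw [e2, finrank_bot, add_zero] at e1
    rw [← e1]
    apply finrank_sol Θ' U hU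
    rintro _ ⟨g, hg, rfl⟩ _ ⟨u0, hu0, rfl⟩
    rw [SetLike.mem_coe, mem_Lie_bot] at hg
    have := hg.2 u0 hu0
    rw [Fintype.sum_sum_type] at this
    rw [← this]
    have e3 : ∑ i : Fin l × J', (u0 (Sum.inl i) : ℂ) * g (Sum.inl i) = 0 := by
      apply Finset.sum_eq_zero
      intro i _
      rw [hg.1 (Sum.inl i) rfl, mul_zero]
    rw [e3, zero_add]
    rfl
  -- the row vectors
  have h6 : ∀ j, (fun p => ∑ a, e' a * (v j (p, a) : ℂ)) ∈
      XiC K A (Submodule.map (piC k E) (Lie kap L Θ)) := by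
    intro j
    have hmC : (m : ℂ) ≠ 0 := by exact_mod_cast hm
    unfold XiC
    rw [Submodule.mem_inf]
    constructor
    · rw [Submodule.mem_comap]
      have e5 : (m : ℂ) • (Matrix.vecMulLinear (A 0))
          (fun p => ∑ a, e' a * (v j (p, a) : ℂ)) = fun j' => ∑ i, (v j i : ℂ) * k i j' := by
        funext j'
        simp only [Pi.smul_apply, Matrix.vecMulLinear_apply, Matrix.vecMul, dotProduct,
          smul_eq_mul, hk]
        rw [Fintype.sum_prod_type, Finset.mul_sum]
        refine Finset.sum_congr rfl fun p _ => ?_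
        rw [Finset.sum_mul, Finset.mul_sum]
        refine Finset.sum_congr rfl fun a _ => ?_
        ring
      have e6 : (fun j' => ∑ i, (v j i : ℂ) * k i j') ∈
          Submodule.map (piC k E) (Lie kap L Θ) := by
        refine ⟨Sum.elim (fun i => ((v j i : ℤ) : ℂ)) (fun _ => 0), ?_, ?_⟩
        · exact hStd.L_le (Gs_add lam q (hvG j))
        · funext j'
          rw [piC_apply]
          simp only [Sum.elim_inl, Sum.elim_inr, mul_zero, Finset.sum_const_zero, add_zero]
          exact Finset.sum_congr rfl fun i _ => by ring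
      rw [← e5] at e6
      exact (Submodule.smul_mem_iff _ hmC).1 e6
    · rw [Submodule.mem_iInf]
      intro k0
      rw [Submodule.mem_iInf]
      intro hk0
      rw [Submodule.mem_comap]
      let qv : Fin c × J → ℚ := fun x => ∑ i, (v j i : ℚ) * (q k0 i x : ℚ)
      have e5 : (m : ℂ) • (Matrix.vecMulLinear (A k0.succ))
          (fun p => ∑ a, e' a * (v j (p, a) : ℂ)) =
            fun l => ∑ a, e a * ((qv (l, a) : ℚ) : ℂ) := by
        funext j'
        simp only [Pi.smul_apply, Matrix.vecMulLinear_apply, Matrix.vecMul, dotProduct,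
          smul_eq_mul, qv]
        push_cast
        simp only [Finset.mul_sum]
        rw [Finset.sum_comm (s := (Finset.univ : Finset J)), Fintype.sum_prod_type]
        refine Finset.sum_congr rfl fun p _ => ?_
        rw [Finset.sum_mul, Finset.mul_sum]
        refine Finset.sum_congr rfl fun a _ => ?_
        have e7 := hrel k0 p a j'
        calc (m : ℂ) * (e' a * (v j (p, a) : ℂ) * A k0.succ p j')
            = (v j (p, a) : ℂ) * ((m : ℂ) * e' a * A k0.succ p j') := by ring
          _ = (v j (p, a) : ℂ) * ∑ x, (q k0 (p, a) (j', x) : ℂ) * e x := by rw [e7]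
          _ = _ := by
              rw [Finset.mul_sum]
              exact Finset.sum_congr rfl fun x _ => by ring
      have e6 : (fun l => ∑ a, e a * ((qv (l, a) : ℚ) : ℂ)) ∈
          Submodule.map (piC k E) (Lie kap L Θ) := by
        apply hepsX
        rw [hU]
        rintro _ ⟨u0, hu0, rfl⟩
        have := Gs_mul lam q hMI hStd (hvG j) hu0 hk0
        have e8 := congrArg (fun z : ℤ => (z : ℚ)) this
        simpa [qv] using e8
      rw [← e5] at e6
      exact (Submodule.smul_mem_iff _ hmC).1 e6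
  have h7 : M ≤ Fintype.card J' * finrank ℂ (XiC K A (Submodule.map (piC k E) (Lie kap L Θ))) :=
    hAA e' hIe' M v hvK hvli _ h6
  have h8 := hSemi (Submodule.map (piC k E) (Lie kap L Θ))
  constructor
  · calc c * M ≤ c * (Fintype.card J' *
          finrank ℂ (XiC K A (Submodule.map (piC k E) (Lie kap L Θ)))) :=
          Nat.mul_le_mul_left _ h7
      _ = Fintype.card J' * (c * finrank ℂ (XiC K A (Submodule.map (piC k E) (Lie kap L Θ)))) := by
          ring
      _ ≤ Fintype.card J' * (l * cs) := Nat.mul_le_mul_left _ h8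
      _ = _ := by ring
  · calc c * finrank ℂ (Lie kap ⊥ Θ) ≤ c * finrank ℚ U := Nat.mul_le_mul_left _ h2
      _ ≤ c * (Fintype.card J * cs) := Nat.mul_le_mul_left _ h1
      _ = _ := by ring

end Pool.Agent.H72.HRA
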