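import Pool.Agent.H72.HR.FIN3
import Pool.Agent.H72.HRA.Targets

open MvPolynomial Module

set_option linter.unusedSectionVars false

namespace Pool.Agent.H72.HRA

open Pool.Agent.H72.HR

section
variable {ρ τ : Type} [Fintype ρ] [Fintype τ] [DecidableEq ρ] [DecidableEq τ] {c : ℕ}

/-- the linear map with kernel `W` -/
noncomputable def piC (k : ρ → Fin c → ℂ) (E : Fin c → τ → ℂ) :
    (ρ ⊕ τ → ℂ) →ₗ[ℂ] (Fin c → ℂ) :=
  LinearMap.pi (fun l : Fin c =>
    (∑ i, k i l • LinearMap.proj (R := ℂ) (φ := fun _ : ρ ⊕ τ => ℂ) (Sum.inl i)) +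
    ∑ a, E l a • LinearMap.proj (R := ℂ) (φ := fun _ : ρ ⊕ τ => ℂ) (Sum.inr a))

theorem piC_apply (k : ρ → Fin c → ℂ) (E : Fin c → τ → ℂ) (g : ρ ⊕ τ → ℂ) (l : Fin c) :
    piC k E g l = ∑ i, k i l * g (Sum.inl i) + ∑ a, E l a * g (Sum.inr a) := by
  simp [piC, LinearMap.pi_apply]

variable (ν : Fin c → τ) (k : ρ → Fin c → ℂ) (E : Fin c → τ → ℂ)
  (hE : ∀ l l', E l (ν l') = if l = l' then 1 else 0)

include hE

theorem nu_injC : Function.Injective ν := by
  intro l l' h
  by_contra hne
  have h1 := hE l l
  have h2 := hE l l'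
  rw [if_pos rfl] at h1
  rw [if_neg hne, ← h, h1] at h2
  exact one_ne_zero h2

theorem span_omC : Submodule.span ℂ (Set.range (omC ν k E)) = LinearMap.ker (piC k E) := by
  have hinj := nu_injC ν E hE
  apply le_antisymm
  · rw [Submodule.span_le]
    rintro _ ⟨x, rfl⟩
    rw [SetLike.mem_coe, LinearMap.mem_ker]
    funext l
    rw [piC_apply]
    rcases x with i | a
    · simp only [omC, Pi.sub_apply, Finset.sum_apply, Pi.zero_apply]
      have h1 : ∑ i', k i' l * ((Pi.single (Sum.inl i) 1 : ρ ⊕ τ → ℂ) (Sum.inl i') -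
          ∑ l', (Pi.single (Sum.inr (ν l')) (k i l') : ρ ⊕ τ → ℂ) (Sum.inl i')) = k i l := by
        rw [Finset.sum_eq_single i]
        · simp
        · intro b _ hb
          simp [Pi.single_apply, hb]
        · simp
      have h2 : ∑ a, E l a * ((Pi.single (Sum.inl i) 1 : ρ ⊕ τ → ℂ) (Sum.inr a) -
          ∑ l', (Pi.single (Sum.inr (ν l')) (k i l') : ρ ⊕ τ → ℂ) (Sum.inr a)) = -k i l := by
        have h3 : ∀ a, E l a * ((Pi.single (Sum.inl i) 1 : ρ ⊕ τ → ℂ) (Sum.inr a) -
          ∑ l', (Pi.single (Sum.inr (ν l')) (k i l') : ρ ⊕ τ → ℂ) (Sum.inr a)) =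
            -∑ l', if a = ν l' then E l a * (k i l') else 0 := by
          intro a
          simp only [Pi.single_apply, reduceCtorEq, if_false, zero_sub, Sum.inr.injEq, mul_neg,
            Finset.mul_sum, mul_ite, mul_zero]
        rw [Finset.sum_congr rfl fun a _ => h3 a, Finset.sum_neg_distrib, Finset.sum_comm]
        congr 1
        simp only [Finset.sum_ite_eq', Finset.mem_univ, if_true, hE]
        rw [Finset.sum_eq_single l]
        · simp
        · intro b _ hb
          simp [Ne.symm hb]
        · simp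
      rw [h1, h2]; ring
    · simp only [omC, Pi.sub_apply, Finset.sum_apply, Pi.zero_apply]
      have h1 : ∑ i', k i' l * ((Pi.single (Sum.inr a) 1 : ρ ⊕ τ → ℂ) (Sum.inl i') -
          ∑ l', (Pi.single (Sum.inr (ν l')) (E l' a) : ρ ⊕ τ → ℂ) (Sum.inl i')) = 0 := by
        apply Finset.sum_eq_zero
        intro i' _
        simp [Pi.single_apply]
      have h2 : ∑ a', E l a' * ((Pi.single (Sum.inr a) 1 : ρ ⊕ τ → ℂ) (Sum.inr a') -
          ∑ l', (Pi.single (Sum.inr (ν l')) (E l' a) : ρ ⊕ τ → ℂ) (Sum.inr a')) = 0 := by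
        have h3 : ∀ a', E l a' * ((Pi.single (Sum.inr a) 1 : ρ ⊕ τ → ℂ) (Sum.inr a') -
          ∑ l', (Pi.single (Sum.inr (ν l')) (E l' a) : ρ ⊕ τ → ℂ) (Sum.inr a')) =
            (if a' = a then E l a' else 0) -
            ∑ l', if a' = ν l' then E l a' * (E l' a) else 0 := by
          intro a'
          simp only [Pi.single_apply, Sum.inr.injEq, mul_sub,
            Finset.mul_sum, mul_ite, mul_zero, mul_one]
        rw [Finset.sum_congr rfl fun a' _ => h3 a', Finset.sum_sub_distrib, Finset.sum_comm]
        simp only [Finset.sum_ite_eq', Finset.sum_ite_eq, Finset.mem_univ, if_true, hE]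
        rw [Finset.sum_eq_single l]
        · simp
        · intro b _ hb
          simp [Ne.symm hb]
        · simp
      rw [h1, h2]; ring
  · intro g hg
    rw [LinearMap.mem_ker] at hg
    have h1 : g = ∑ i, g (Sum.inl i) • omC ν k E (Sum.inl i) +
        ∑ a, g (Sum.inr a) • omC ν k E (Sum.inr a) := by
      funext x
      simp only [Pi.add_apply, Finset.sum_apply, Pi.smul_apply, smul_eq_mul, omC, Pi.sub_apply]
      rcases x with i | a
      · have e1 : ∀ i', g (Sum.inl i') * ((Pi.single (Sum.inl i') 1 : ρ ⊕ τ → ℂ) (Sum.inl i) -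
            ∑ l', (Pi.single (Sum.inr (ν l')) (k i' l') : ρ ⊕ τ → ℂ) (Sum.inl i)) =
            if i = i' then g (Sum.inl i') else 0 := by
          intro i'
          simp [Pi.single_apply]
        have e2 : ∀ a, g (Sum.inr a) * ((Pi.single (Sum.inr a) 1 : ρ ⊕ τ → ℂ) (Sum.inl i) -
            ∑ l', (Pi.single (Sum.inr (ν l')) (E l' a) : ρ ⊕ τ → ℂ) (Sum.inl i)) = 0 := by
          intro a
          simp [Pi.single_apply]
        rw [Finset.sum_congr rfl fun i' _ => e1 i', Finset.sum_congr rfl fun a _ => e2 a]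
        simp
      · have e1 : ∀ i', g (Sum.inl i') * ((Pi.single (Sum.inl i') 1 : ρ ⊕ τ → ℂ) (Sum.inr a) -
            ∑ l', (Pi.single (Sum.inr (ν l')) (k i' l') : ρ ⊕ τ → ℂ) (Sum.inr a)) =
            -∑ l', if a = ν l' then (k i' l') * g (Sum.inl i') else 0 := by
          intro i'
          simp only [Pi.single_apply, reduceCtorEq, if_false, zero_sub, Sum.inr.injEq, mul_neg,
            Finset.mul_sum, mul_ite, mul_zero]
          congr 1
          refine Finset.sum_congr rfl fun y _ => ?_
          split_ifs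
          · ring
          · rfl
        have e2 : ∀ a', g (Sum.inr a') * ((Pi.single (Sum.inr a') 1 : ρ ⊕ τ → ℂ) (Sum.inr a) -
            ∑ l', (Pi.single (Sum.inr (ν l')) (E l' a') : ρ ⊕ τ → ℂ) (Sum.inr a)) =
            (if a = a' then g (Sum.inr a') else 0) -
              ∑ l', if a = ν l' then (E l' a') * g (Sum.inr a') else 0 := by
          intro a'
          simp only [Pi.single_apply, Sum.inr.injEq, mul_sub, Finset.mul_sum, mul_ite,
            mul_zero, mul_one]
          congr 1
          refine Finset.sum_congr rfl fun y _ => ?_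
          split_ifs
          · ring
          · rfl
        rw [Finset.sum_congr rfl fun i' _ => e1 i', Finset.sum_congr rfl fun a' _ => e2 a',
          Finset.sum_neg_distrib, Finset.sum_sub_distrib]
        rw [Finset.sum_comm (s := (Finset.univ : Finset ρ)),
          Finset.sum_comm (s := (Finset.univ : Finset τ))]
        simp only [Finset.sum_ite_eq, Finset.mem_univ, if_true]
        have e3 : (∑ y, ∑ x, if a = ν y then k x y * g (Sum.inl x) else 0) +
            (∑ y, ∑ x, if a = ν y then E y x * g (Sum.inr x) else 0) = 0 := by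
          rw [← Finset.sum_add_distrib]
          apply Finset.sum_eq_zero
          intro y _
          by_cases h : a = ν y
          · simp only [h, if_true]
            have := congrFun hg y
            rw [piC_apply] at this
            simpa using this
          · simp [h]
        linear_combination e3
    rw [h1]
    refine Submodule.add_mem _ (Submodule.sum_mem _ fun i _ => ?_)
      (Submodule.sum_mem _ fun a _ => ?_)
    · exact Submodule.smul_mem _ _ (Submodule.subset_span ⟨_, rfl⟩)
    · exact Submodule.smul_mem _ _ (Submodule.subset_span ⟨_, rfl⟩)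

theorem range_piC : LinearMap.range (piC k E) = ⊤ := by
  have hinj := nu_injC ν E hE
  rw [LinearMap.range_eq_top]
  intro z
  refine ⟨∑ l, Pi.single (Sum.inr (ν l)) (z l), ?_⟩
  funext l
  rw [piC_apply]
  simp only [Finset.sum_apply, Pi.single_apply, reduceCtorEq, if_false, Finset.sum_const_zero,
    mul_zero, zero_add, Sum.inr.injEq, Finset.mul_sum, mul_ite, mul_zero]
  rw [Finset.sum_comm]
  simp only [Finset.sum_ite_eq', Finset.mem_univ, if_true, hE]
  rw [Finset.sum_eq_single l]
  · simp
  · intro b _ hb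
    simp [Ne.symm hb]
  · simp

theorem finrank_ker_piC : finrank ℂ (LinearMap.ker (piC k E)) + c =
    Fintype.card ρ + Fintype.card τ := by
  have h := LinearMap.finrank_range_add_finrank_ker (piC k E)
  rw [range_piC ν k E hE, finrank_top] at h
  simp only [Module.finrank_fintype_fun_eq_card, Fintype.card_fin, Fintype.card_sum] at h
  omega

end

end Pool.Agent.H72.HRA
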