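import Pool.Agent.H72.HRA.FIN
import Pool.Agent.H72.HR.FINM
import Pool.Agent.H72.BF.Targets

open MvPolynomial Module

set_option linter.unusedSectionVars false

namespace Pool.Agent.H72.HRA

open Pool.Agent.H72.HR
open Pool.Agent.H72.BF (AlgB)

theorem algB_mono {δ : ℕ} {A A' : ℝ} {x : ℂ} (h : AlgB δ A x) (hA : A ≤ A') : AlgB δ A' x := by
  obtain ⟨p, h1, h2, h3, h4⟩ := h
  exact ⟨p, h1, h2, fun i => (h3 i).trans hA, h4⟩

theorem algB_zero {δ : ℕ} {A : ℝ} (hδ : 1 ≤ δ) (hA : 1 ≤ A) : AlgB δ A 0 := by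
  refine ⟨Polynomial.X, Polynomial.X_ne_zero, by simpa using hδ, fun i => ?_, by simp⟩
  rw [Polynomial.coeff_X]
  split_ifs <;> simp <;> linarith

theorem algB_deg {δ : ℕ} {A : ℝ} {x : ℂ} (h : AlgB δ A x) : 1 ≤ δ := by
  obtain ⟨p, h1, h2, h3, h4⟩ := h
  by_contra hcon
  have h0 : p.natDegree = 0 := by omega
  obtain ⟨a, rfl⟩ := Polynomial.natDegree_eq_zero.1 h0
  rw [Polynomial.aeval_C] at h4
  have h5 : a = 0 := by simpa using h4
  rw [h5] at h1
  simp at h1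

set_option maxHeartbeats 4000000 in
theorem finA (hROOT : Pool.Agent.H72.BF.T_ROOT) (hZE : T_ZE) (hAN : T_ANA) (hPAR : T_PAR)
    (hOBT : T_OBTC) (hOBA : T_OBAC) (hCHV : T_CHV) (hCLB : T_CLB) (hSHV : T_SHV) : T_FINA := by
  classical
  intro n lam K halg hMI l c w δ J' J _ _ _ _ o q m C0 hm hwc hineq
  have hJ'pos : 0 < Fintype.card J' := by
    rcases Nat.eq_zero_or_pos (Fintype.card J') with h0 | h0
    · rw [h0] at hineq; simp at hineq
    · exact h0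
  have hlpos : 0 < l := by
    rcases Nat.eq_zero_or_pos l with h0 | h0
    · rw [h0] at hineq; simp at hineq
    · exact h0
  have hJpos : 0 < Fintype.card J := Fintype.card_pos_iff.2 ⟨o⟩
  have hcρ : Fintype.card (Fin l × J') = l * Fintype.card J' := by simp
  have hcτ : Fintype.card (Fin c × J) = c * Fintype.card J := by simp
  obtain ⟨r, hr⟩ : ∃ r, r = Fintype.card (Fin l × J') := ⟨_, rfl⟩
  obtain ⟨d, hd⟩ : ∃ d, d = Fintype.card (Fin c × J) := ⟨_, rfl⟩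
  obtain ⟨n0, hn0⟩ : ∃ n0, n0 = r + d := ⟨_, rfl⟩
  have hrpos : 0 < r := by rw [hr, hcρ]; positivity
  have hn0pos : 1 ≤ n0 := by omega
  have hcd : c ≤ d := by rw [hd, hcτ]; nlinarith
  obtain ⟨A, B, Q, hA1, hAQ, hB1, hBQ, hpar1, hpar2⟩ := hPAR r d c w
    (by rw [hr, hd, hcρ, hcτ]; exact hineq) hcd
  obtain ⟨g0, hg0⟩ := hAN n lam halg (Fin l × J') (Fin c × J) c w δ q (3 * |C0| + 2) A B Q
    hwc hAQ hB1 hBQ (by rw [← hr, ← hd]; exact hpar1)
  obtain ⟨g, hg⟩ : ∃ g, g = max g0 (n0 ^ (3 * n0) + 1) := ⟨_, rfl⟩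
  have hgg0 : g0 ≤ g := by rw [hg]; exact le_max_left _ _
  have hgbig : n0 ^ (3 * n0) < g := by rw [hg]; exact lt_of_lt_of_le (Nat.lt_succ_self _) (le_max_right _ _)
  have hg1 : 1 ≤ g := by omega
  obtain ⟨C3', h0', hAN'⟩ := hg0 g hgg0
  obtain ⟨A2, hA2⟩ : ∃ A2, A2 = n0 ^ n0 * g ^ (Q * n0) := ⟨_, rfl⟩
  obtain ⟨K1, hK1⟩ := hSHV (Fin l × J') (A2 * (2 * n0) ^ n0)
  obtain ⟨AT, hAT⟩ := hOBT J c (g ^ (Q - A))
  obtain ⟨AA, hAA⟩ := hOBA J' l K1
  refine ⟨max (max AT AA) 1, C3' + |C0| + |(m : ℝ)| + 1,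
    max (max h0' 1) (n0 ^ n0 * A2 + 1 + n0 * (K1 + 1)), ?_⟩
  intro h hh e' e A_ heo hIe' hIe be' be bk0 hrel hSemi I b hb hcontra
  have hh0 : h0' ≤ h := (le_max_left _ _).trans ((le_max_left _ _).trans hh)
  have hh1 : 1 ≤ h := (le_max_right _ _).trans ((le_max_left _ _).trans hh)
  have hhbig : n0 ^ n0 * A2 + 1 + n0 * (K1 + 1) ≤ h := (le_max_right _ _).trans hh
  obtain ⟨a0⟩ : Nonempty J' := Fintype.card_pos_iff.1 hJ'pos
  have he'0 : e' a0 ≠ 0 := hIe'.ne_zero (le_max_right _ _) a0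
  -- data
  obtain ⟨ν, hν⟩ : ∃ ν : Fin c → Fin c × J, ν = fun j => (j, o) := ⟨_, rfl⟩
  obtain ⟨k, hk⟩ : ∃ k : Fin l × J' → Fin c → ℂ, k = fun i j => m * e' i.2 * A_ 0 i.1 j := ⟨_, rfl⟩
  obtain ⟨E, hE⟩ : ∃ E : Fin c → Fin c × J → ℂ, E = fun j x => if x.1 = j then e x.2 else 0 :=
    ⟨_, rfl⟩
  have hEν : ∀ j j', E j (ν j') = if j = j' then 1 else 0 := by
    intro j j'
    simp only [hE, hν, heo, eq_comm]
  have hhR : (1 : ℝ) ≤ h := by exact_mod_cast hh1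
  have hh0R : (0 : ℝ) ≤ h := by linarith
  have hmono : Real.exp (C0 * h) ≤ Real.exp ((3 * |C0| + 2) * h) := by
    apply Real.exp_le_exp.2
    nlinarith [mul_le_mul_of_nonneg_right (le_abs_self C0) hh0R, mul_nonneg (abs_nonneg C0) hh0R]
  have hδ1 : 1 ≤ δ := algB_deg (be o)
  have hexp1 : (1 : ℝ) ≤ Real.exp (|C0| * h) := by
    rw [← Real.exp_zero]; exact Real.exp_le_exp.2 (by positivity)
  have hexp2 : 1 + Real.exp (|C0| * h) ≤ Real.exp ((|C0| + 1) * h) := by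
    have e1 : (2 : ℝ) ≤ Real.exp h := by
      have := Real.add_one_le_exp (h : ℝ); linarith
    calc 1 + Real.exp (|C0| * h) ≤ 2 * Real.exp (|C0| * h) := by linarith
      _ ≤ Real.exp h * Real.exp (|C0| * h) := by
          exact mul_le_mul_of_nonneg_right e1 (Real.exp_pos _).le
      _ = _ := by rw [← Real.exp_add]; congr 1; ring
  have hroot : ∀ x : ℂ, AlgB δ (Real.exp (C0 * h)) x → ‖x‖ ≤ Real.exp ((|C0| + 1) * h) ∧
      (x ≠ 0 → ‖x‖⁻¹ ≤ Real.exp ((|C0| + 1) * h)) := by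
    intro x hx
    have e1 := hROOT δ (Real.exp (|C0| * h)) x hexp1 (algB_mono hx (Real.exp_le_exp.2
      (mul_le_mul_of_nonneg_right (le_abs_self _) hh0R)))
    exact ⟨e1.1.trans hexp2, fun hx0 => (e1.2 hx0).trans hexp2⟩
  have bk : ∀ i j, AlgB δ (Real.exp ((3 * |C0| + 2) * h)) (k i j) := by
    intro i j
    rw [hk]
    exact algB_mono (bk0 _ _ _) hmono
  have bE : ∀ j x, AlgB δ (Real.exp ((3 * |C0| + 2) * h)) (E j x) := by
    intro j x
    rw [hE]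
    simp only
    split_ifs with hx
    · exact algB_mono (be _) hmono
    · exact algB_zero hδ1 (by rw [← Real.exp_zero]; exact Real.exp_le_exp.2 (by positivity))
  obtain ⟨b', hb'⟩ : ∃ b' : Fin l × J' → Fin w → ℂ,
      b' = fun i x => b i.1 x * (e' i.2 / e' a0) := ⟨_, rfl⟩
  have bb' : ∀ i x, ‖b' i x‖ ≤ Real.exp ((3 * |C0| + 2) * h) := by
    intro i x
    rw [hb']
    simp only [norm_mul, norm_div]
    have e1 := (hroot _ (be' a0)).2 he'0
    have e2 := (hroot _ (be' i.2)).1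
    have e3 : ‖b i.1 x‖ ≤ Real.exp (|C0| * h) := (hb _ _).trans (Real.exp_le_exp.2
      (mul_le_mul_of_nonneg_right (le_abs_self _) hh0R))
    rw [div_eq_mul_inv]
    calc ‖b i.1 x‖ * (‖e' i.2‖ * ‖e' a0‖⁻¹)
        ≤ Real.exp (|C0| * h) * (Real.exp ((|C0| + 1) * h) * Real.exp ((|C0| + 1) * h)) := by
          refine mul_le_mul e3 (mul_le_mul e2 e1 (by positivity) (Real.exp_pos _).le)
            (by positivity) (Real.exp_pos _).le
      _ = _ := by rw [← Real.exp_add, ← Real.exp_add]; congr 1; ring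
  have hyy : ∀ i j, yyC lam q k E i j = (m : ℂ) * e' i.2 * MvC lam A_ i.1 j := by
    rintro ⟨p, a'⟩ j
    simp only [yyC, MvC, hk, hE]
    rw [Fintype.sum_prod_type, Finset.sum_eq_single j]
    · simp only [if_true, Lam]
      rw [mul_add]
      congr 1
      rw [Finset.mul_sum]
      simp only [Finset.mul_sum]
      rw [Finset.sum_comm]
      refine Finset.sum_congr rfl fun k0 _ => ?_
      have e7 := hrel k0 p a' j
      calc ∑ x, e x * ((q k0 (p, a') (j, x) : ℂ) * lam k0)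
          = lam k0 * ∑ x, (q k0 (p, a') (j, x) : ℂ) * e x := by
            rw [Finset.mul_sum]; exact Finset.sum_congr rfl fun x _ => by ring
        _ = lam k0 * ((m : ℂ) * e' a' * A_ k0.succ p j) := by rw [e7]
        _ = _ := by ring
    · intro b0 _ hb0
      simp [hb0]
    · simp
  obtain ⟨I', hI'⟩ : ∃ I' : Fin w → Fin l × J', I' = fun x => (I x, a0) := ⟨_, rfl⟩
  have herr : ∀ i j, ‖yyC lam q k E i j - ∑ x, b' i x * yyC lam q k E (I' x) j‖ ≤
      Real.exp (-(C3' * h)) := by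
    intro i j
    have e1 : yyC lam q k E i j - ∑ x, b' i x * yyC lam q k E (I' x) j =
        ((m : ℂ) * e' i.2) * (MvC lam A_ i.1 j - ∑ x, b i.1 x * MvC lam A_ (I x) j) := by
      simp only [hyy]
      rw [mul_sub, Finset.mul_sum]
      congr 1
      refine Finset.sum_congr rfl fun x _ => ?_
      rw [hb', hI']
      field_simp
    rw [e1, norm_mul, norm_mul, Complex.norm_intCast]
    have e2 := (hroot _ (be' i.2)).1
    calc |(m : ℝ)| * ‖e' i.2‖ * ‖MvC lam A_ i.1 j - ∑ x, b i.1 x * MvC lam A_ (I x) j‖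
        ≤ Real.exp (|(m : ℝ)| * h) * Real.exp ((|C0| + 1) * h) *
          Real.exp (-((C3' + |C0| + |(m : ℝ)| + 1) * h)) := by
          refine mul_le_mul (mul_le_mul (abs_le_exp' m h hh1) e2
            (norm_nonneg _) (Real.exp_pos _).le) (hcontra _ _) (norm_nonneg _) (by positivity)
      _ = _ := by rw [← Real.exp_add, ← Real.exp_add]; congr 1; ring
  obtain ⟨P, hP0, hPbox, hPv⟩ := hAN' h hh0 ν k E hEν bk bE I' b' bb' herr
  -- the zero estimate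
  obtain ⟨S, hS⟩ : ∃ S, S = g ^ Q / n0 := ⟨_, rfl⟩
  obtain ⟨M, hM⟩ : ∃ M, M = h * g ^ A / n0 := ⟨_, rfl⟩
  have hS1 : n0 * S ≤ g ^ Q := by rw [hS]; exact Nat.mul_div_le _ _
  have hM1 : n0 * M ≤ h * g ^ A := by rw [hM]; exact Nat.mul_div_le _ _
  have hS2 : g ^ Q ≤ n0 * (S + 1) := by
    rw [hS]; exact (Nat.lt_mul_div_succ _ hn0pos).le
  have hM2 : h * g ^ A ≤ n0 * (M + 1) := by
    rw [hM]; exact (Nat.lt_mul_div_succ _ hn0pos).le
  have hhM : h ≤ n0 * (M + 1) :=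
    (Nat.le_mul_of_pos_right h (Nat.pow_pos (by omega))).trans hM2
  have hK1M : K1 + 1 ≤ M + 1 := by
    have h9 : n0 * (K1 + 1) ≤ n0 * (M + 1) := by
      calc n0 * (K1 + 1) ≤ n0 ^ n0 * A2 + 1 + n0 * (K1 + 1) := Nat.le_add_left _ _
        _ ≤ h := hhbig
        _ ≤ _ := hhM
    exact Nat.le_of_mul_le_mul_left h9 (by omega)
  have hchn := hCHV ((Fin l × J') ⊕ (Fin c × J)) ((Fin l × J') ⊕ (Fin c × J)) (Fin l × J') kap
    (omC ν k E) (gam lam q) S M P (gam_add lam q) n0 (by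
      intro s hs L hL
      refine hPv s (fun i => ⟨(hs i).1, (hs i).2.trans ?_⟩) L (hL.trans hS1)
      exact_mod_cast hM1)
  obtain ⟨L, Θ, hStd, haρ, huτ, hlt, hF⟩ := hZE (Fin l × J') (Fin c × J) (h * g ^ (Q - B))
    (g ^ (Q - A)) S (Submodule.span ℂ (Set.range (omC ν k E)))
    (gam lam q '' {s | ∀ i, 0 ≤ s i ∧ s i ≤ M}) P (Nat.mul_pos hh1 (Nat.pow_pos (by omega)))
    (Nat.pow_pos (by omega)) ⟨0, fun i => ⟨le_rfl, by positivity⟩, gam_zero lam q⟩ hP0 hPbox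
    (by rw [← hr, ← hd, ← hn0]; exact hchn)
  rw [← hr] at haρ
  rw [← hd] at huτ
  rw [← hr, ← hd] at hlt
  obtain ⟨a, ha⟩ : ∃ a, a = finrank ℂ L := ⟨_, rfl⟩
  obtain ⟨u, hu⟩ : ∃ u, u = finrank ℂ (Lie kap ⊥ Θ) := ⟨_, rfl⟩
  obtain ⟨l', hl'⟩ : ∃ l', l' = finrank ℂ (Submodule.span ℂ (Set.range (omC ν k E))) -
    finrank ℂ (Submodule.span ℂ (Set.range (omC ν k E)) ⊓ Lie kap L Θ :
      Submodule ℂ ((Fin l × J') ⊕ (Fin c × J) → ℂ)) := ⟨_, rfl⟩
  have hcount : ∀ F0 : Finset (Fin l × J' → ℤ), (∀ s ∈ F0, ∀ i, 0 ≤ s i ∧ s i ≤ M) →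
      (∀ s ∈ F0, ∀ s' ∈ F0, s - s' ∈ Gs lam q L Θ → s = s') →
      F0.card * (S + 1) ^ l' ≤ n0 ^ n0 * ((h * g ^ (Q - B)) ^ (r - a) * (g ^ (Q - A)) ^ (d - u)) := by
    intro F0 hF0a hF0b
    have := hF (F0.image (gam lam q)) (by
      intro x hx
      obtain ⟨s, hs, rfl⟩ := Finset.mem_image.1 hx
      exact ⟨s, hF0a s hs, rfl⟩) (by
      intro x hx x' hx' hxx'
      obtain ⟨s, hs, rfl⟩ := Finset.mem_image.1 hx
      obtain ⟨s', hs', rfl⟩ := Finset.mem_image.1 hx'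
      rw [← gam_sub] at hxx'
      rw [hF0b s hs s' hs' hxx'])
    rw [Finset.card_image_of_injective _ (gam_inj lam q), ← hr, ← hd, ← hn0, ← ha, ← hu,
      ← hl'] at this
    exact this
  obtain ⟨rk, hrk⟩ : ∃ rk, rk = finrank ℤ (Gs lam q L Θ) := ⟨_, rfl⟩
  have hFA2 : ∀ F0 : Finset (Fin l × J' → ℤ), (∀ s ∈ F0, ∀ i, 0 ≤ s i ∧ s i ≤ M) →
      (∀ s ∈ F0, ∀ s' ∈ F0, s - s' ∈ Gs lam q L Θ → s = s') →
      F0.card ≤ A2 * h ^ (r - a) := by
    intro F0 h1 h2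
    calc F0.card ≤ F0.card * (S + 1) ^ l' := Nat.le_mul_of_pos_right _ (by positivity)
      _ ≤ _ := hcount F0 h1 h2
      _ ≤ _ := by rw [hA2]; exact num3 n0 h g Q r d a u B A hg1 hn0
  obtain ⟨F1, hF1a, hF1b, hF1c⟩ := hCLB (Fin l × J') (Gs lam q L Θ) M
  rw [← hr, ← hrk] at hF1c
  have hark : a ≤ rk := num4 n0 h r a rk A2 M F1.card hn0pos (by omega) (by omega) hhM hF1c
    (hFA2 F1 hF1a hF1b) (by omega)
  have hrka : rk ≤ a := by rw [hrk, ha]; exact rk_G lam q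
  have hrkeq : rk = a := le_antisymm hrka hark
  obtain ⟨v, hvG, hvK, hvli⟩ := hK1 (Gs lam q L Θ) M (by omega) (by
    intro F0 h1 h2
    rw [← hr, ← hrk, hrkeq]
    by_cases hM0 : 1 ≤ M
    · exact num5 n0 h r a A2 M F0.card hn0pos (by omega) hM0 hhM (hFA2 F0 h1 h2)
    · -- M = 0: only one point
      have hM0' : M = 0 := by omega
      have hK0 : K1 = 0 := by omega
      have hcard : F0.card ≤ 1 := by
        rw [Finset.card_le_one]
        intro s hs s' hs'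
        funext i
        have e1 := h1 s hs i
        have e2 := h1 s' hs' i
        rw [hM0'] at e1 e2
        simp only [Nat.cast_zero] at e1 e2
        omega
      by_cases hra : r - a = 0
      · rw [hra, pow_zero, mul_one]
        refine hcard.trans ?_
        have : 0 < A2 * (2 * n0) ^ n0 := by
          rw [hA2]; positivity
        omega
      · exfalso
        -- h ≤ n0, but h is large
        have e3 : h ≤ n0 := by rw [hM0'] at hhM; simpa using hhM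
        have e4 : n0 * 1 ≤ n0 * (K1 + 1) := Nat.mul_le_mul_left _ (by omega)
        omega)
  have hobs := obsC hMI q m hm (g ^ (Q - A)) K1 AT AA hAT hAA e' e A_
    (hIe'.mono ((le_max_right _ _).trans (le_max_left _ _)))
    (hIe.mono ((le_max_left _ _).trans (le_max_left _ _))) hrel hSemi k E hk hE
    (T := TT (h * g ^ (Q - B)) (g ^ (Q - A))) (fun x => rfl) hStd v hvG hvK hvli
  obtain ⟨cs, hcs⟩ : ∃ cs, cs = finrank ℂ (Submodule.map (piC k E) (Lie kap L Θ)) := ⟨_, rfl⟩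
  rw [← hcs, ← hrk, hrkeq, ← hcρ, ← hr, ← hu, ← hcτ, ← hd] at hobs
  have hcsc : cs ≤ c := by
    rw [hcs]
    refine (Submodule.finrank_le _).trans ?_
    simp
  have hspan : Submodule.span ℂ (Set.range (omC ν k E)) = LinearMap.ker (piC k E) :=
    span_omC ν k E hEν
  obtain ⟨fw, hfw⟩ : ∃ fw, fw = finrank ℂ (Submodule.span ℂ (Set.range (omC ν k E))) := ⟨_, rfl⟩
  obtain ⟨wl, hwl⟩ : ∃ wl, wl = finrank ℂ (Submodule.span ℂ (Set.range (omC ν k E)) ⊓ Lie kap L Θ :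
      Submodule ℂ ((Fin l × J') ⊕ (Fin c × J) → ℂ)) := ⟨_, rfl⟩
  have hwlfw : wl ≤ fw := by rw [hwl, hfw]; exact Submodule.finrank_mono inf_le_left
  have q1 : l' + wl = fw := by rw [hl', ← hfw, ← hwl]; omega
  have q2 : wl + cs = a + u := by
    rw [hwl, hcs, ha, hu, ← hStd.finrank_Lie, hspan, add_comm]
    exact finrank_map_add_inf (piC k E) (Lie kap L Θ)
  have q3 : fw + c = r + d := by
    rw [hfw, hspan, hr, hd]
    exact finrank_ker_piC ν k E hEν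
  rw [← ha] at haρ
  rw [← hu] at huτ
  rw [← ha, ← hu] at hlt
  have hnum2 := num2 r d c a u cs l' wl fw A B Q q1 q2 q3 hcsc hobs.1 hobs.2 hlt haρ huτ hA1 hAQ
    hBQ hpar2
  have hfin := num1 n0 h g A B Q (r - a) (d - u) l' M S F1.card hh1 hg1 hn0pos hM2 hS2
    (by rw [← hrkeq]; exact hF1c) (hcount F1 hF1a hF1b) (by omega) hnum2
  omega

end Pool.Agent.H72.HRA
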