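import Pool.Agent.H72.HR.HRM
import Pool.Agent.H72.HRA.FINM

open MvPolynomial Module Filter
open Pool.Agent.H72.BF (Pkg AlgB)

set_option linter.unusedSectionVars false

namespace Pool.Agent.H72.HRA

open Pool.Agent.H72.HR

section
variable {H : ℕ → ℝ} (P : Pkg H) {ι : Type} [Fintype ι] [DecidableEq ι] {δ : ℕ}
  (z : ℕ → ι → ℂ) (hz : ∀ t i, AlgB δ (H t) (z t i))

include hz

theorem z_mem (hROOT : Pool.Agent.H72.BF.T_ROOT) (i : ι) : (fun t => z t i) ∈ P.O := by
  apply P.mem_of_le 2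
  intro t
  have h1 := P.hH t
  refine (hROOT δ (H t) _ (by linarith) (hz t i)).1.trans ?_
  nlinarith

theorem aeval_mem (hROOT : Pool.Agent.H72.BF.T_ROOT) (Q : MvPolynomial ι ℤ) :
    (fun t => aeval (z t) Q) ∈ P.O ∧
      P.ev (fun t => aeval (z t) Q) = aeval (fun i => P.ev (fun t => z t i)) Q := by
  induction Q using MvPolynomial.induction_on with
  | C a =>
    have e1 : (fun t => aeval (z t) (C a : MvPolynomial ι ℤ)) = fun _ => (a : ℂ) := by
      funext t; simp
    rw [e1]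
    refine ⟨P.const_mem _, ?_⟩
    have := P.evZ_const a
    simpa [Pkg.evZ] using this
  | add p q hp hq =>
    have e1 : (fun t => aeval (z t) (p + q)) =
        (fun t => aeval (z t) p) + (fun t => aeval (z t) q) := by
      funext t; simp
    rw [e1]
    refine ⟨P.O.add_mem hp.1 hq.1, ?_⟩
    rw [P.ev_add hp.1 hq.1, hp.2, hq.2, map_add]
  | mul_X p i hp =>
    have e1 : (fun t => aeval (z t) (p * X i)) =
        (fun t => aeval (z t) p) * (fun t => z t i) := by
      funext t; simp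
    have hi := z_mem P z hz hROOT i
    rw [e1]
    refine ⟨P.O.mul_mem hp.1 hi, ?_⟩
    rw [P.ev_mul hp.1 hi, hp.2, map_mul, aeval_X]

/-- integer polynomials in the `z t i` are algebraic of bounded degree and height -/
theorem aeval_alg (P : Pkg H) (hH : ∀ t : ℕ, (t : ℝ) + 2 ≤ H t) {D δ' c : ℕ}
    (hPOL : ∀ (H : ℝ), 2 ≤ H → ∀ z : ι → ℂ, (∀ i, AlgB δ H (z i)) →
      ∀ Q : MvPolynomial ι ℤ, Q.totalDegree ≤ D → (∀ m, |((Q.coeff m : ℤ) : ℝ)| ≤ H) →
      AlgB δ' (H ^ c) (aeval z Q)) (Q : MvPolynomial ι ℤ) (hQ : Q.totalDegree ≤ D) :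
    ∀ᶠ t in (hyperfilter ℕ : Filter ℕ), AlgB δ' (H t ^ c) (aeval (z t) Q) := by
  apply Nat.hyperfilter_le_atTop
  obtain ⟨B, hB⟩ : ∃ B : ℕ, ∀ m, |Q.coeff m| ≤ B := by
    refine ⟨∑ m ∈ Q.support, (Q.coeff m).natAbs, fun m => ?_⟩
    by_cases hm : m ∈ Q.support
    · have := Finset.single_le_sum (f := fun m => (Q.coeff m).natAbs) (fun _ _ => Nat.zero_le _) hm
      rw [Int.abs_eq_natAbs]
      exact_mod_cast this
    · rw [MvPolynomial.notMem_support_iff.1 hm, abs_zero]
      positivity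
  filter_upwards [eventually_ge_atTop B] with t ht
  refine hPOL (H t) (P.hH t) (z t) (hz t) Q hQ fun m => ?_
  have h1 : |((Q.coeff m : ℤ) : ℝ)| ≤ B := by exact_mod_cast hB m
  have h2 : (B : ℝ) ≤ t := by exact_mod_cast ht
  linarith [hH t]

theorem ev_zero_eventually (hROOT : Pool.Agent.H72.BF.T_ROOT)
    (hH : ∀ t : ℕ, (t : ℝ) + 2 ≤ H t) {D δ' c : ℕ}
    (hPOL : ∀ (H : ℝ), 2 ≤ H → ∀ z : ι → ℂ, (∀ i, AlgB δ H (z i)) →
      ∀ Q : MvPolynomial ι ℤ, Q.totalDegree ≤ D → (∀ m, |((Q.coeff m : ℤ) : ℝ)| ≤ H) →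
      AlgB δ' (H ^ c) (aeval z Q)) (Q : MvPolynomial ι ℤ) (hQ : Q.totalDegree ≤ D)
    (h0 : P.ev (fun t => aeval (z t) Q) = 0) :
    ∀ᶠ t in (hyperfilter ℕ : Filter ℕ), aeval (z t) Q = 0 := by
  have h1 := aeval_alg z hz P hH hPOL Q hQ
  rw [P.ev_eq_zero (aeval_mem P z hz hROOT Q).1] at h0
  filter_upwards [h1, h0 (c + 2)] with t ht ht'
  by_contra hne
  have h2 := P.hH t
  have h3 : (1 : ℝ) ≤ H t ^ c := one_le_pow₀ (by linarith)
  have h4 := (hROOT δ' (H t ^ c) _ h3 ht).2 hne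
  have hpos : 0 < ‖aeval (z t) Q‖ := norm_pos_iff.2 hne
  have h5 : 1 ≤ ‖aeval (z t) Q‖ * (1 + H t ^ c) := by
    rw [inv_le_iff_one_le_mul₀ hpos] at h4
    linarith [mul_comm ‖aeval (z t) Q‖ (1 + H t ^ c)]
  have h6 : 1 + H t ^ c < H t ^ (c + 2) := by
    rw [pow_add]
    have h8 : (4 : ℝ) ≤ H t ^ 2 := by nlinarith
    nlinarith [mul_le_mul_of_nonneg_left h8 (by linarith : (0 : ℝ) ≤ H t ^ c)]
  have h7 := mul_lt_mul_of_pos_left h6 hpos
  linarith

end

/-- the monomial polynomial -/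
noncomputable def Qm {ι : Type} [Fintype ι] (m : ι → ℕ) : MvPolynomial ι ℤ := ∏ i, X i ^ m i

theorem aeval_Qm {ι R : Type} [Fintype ι] [CommRing R] (m : ι → ℕ) (z : ι → R) :
    aeval z (Qm m) = ∏ i, z i ^ m i := by
  simp [Qm]

theorem deg_Qm {ι : Type} [Fintype ι] (m : ι → ℕ) : (Qm m).totalDegree ≤ ∑ i, m i := by
  unfold Qm
  refine (MvPolynomial.totalDegree_finsetProd _ _).trans ?_
  refine Finset.sum_le_sum fun i _ => ?_
  refine (MvPolynomial.totalDegree_pow _ _).trans ?_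
  rw [MvPolynomial.totalDegree_X, mul_one]

section
variable {H : ℕ → ℝ} (P : Pkg H) {ι : Type} [Fintype ι] [DecidableEq ι] {δ : ℕ}
  (z : ℕ → ι → ℂ) (hz : ∀ t i, AlgB δ (H t) (z t i))

/-- a finite family of monomials with `ℚ`-independent residues has no small integer relation -/
theorem ev_IndC (hROOT : Pool.Agent.H72.BF.T_ROOT) (hz : ∀ t i, AlgB δ (H t) (z t i))
    (b : Finset (ι → ℕ))
    (hli : LinearIndependent ℚ (fun x : b => mon (fun i => P.ev (fun t => z t i)) x.1)) (A : ℕ) :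
    ∀ᶠ t in (hyperfilter ℕ : Filter ℕ), IndC A (fun x : b => mon (z t) x.1) := by
  classical
  have hfin : {m : b → ℤ | ∀ a, |m a| ≤ A}.Finite := by
    refine Set.Finite.subset (Set.finite_Icc (fun _ => -(A : ℤ)) (fun _ => (A : ℤ))) ?_
    intro m hm
    exact ⟨fun a => (abs_le.1 (hm a)).1, fun a => (abs_le.1 (hm a)).2⟩
  have h1 : ∀ m ∈ {m : b → ℤ | ∀ a, |m a| ≤ A}, ∀ᶠ t in (hyperfilter ℕ : Filter ℕ),
      (∑ a, (m a : ℂ) * mon (z t) a.1 = 0 → m = 0) := by
    intro m _
    by_cases hm0 : m = 0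
    · exact Filter.Eventually.of_forall fun t _ => hm0
    · let Q : MvPolynomial ι ℤ := ∑ a : b, C (m a) * Qm a.1
      have hQ : ∀ t, aeval (z t) Q = ∑ a, (m a : ℂ) * mon (z t) a.1 := by
        intro t
        simp [Q, aeval_Qm, mon]
      have h2 := aeval_mem P z hz hROOT Q
      have h3 : P.ev (fun t => aeval (z t) Q) ≠ 0 := by
        rw [h2.2]
        intro h4
        apply hm0
        rw [Fintype.linearIndependent_iff] at hli
        have h5 := hli (fun a => (m a : ℚ)) (by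
          rw [← h4]
          simp only [Q, map_sum, map_mul, aeval_Qm]
          refine Finset.sum_congr rfl fun a _ => ?_
          rw [Rat.smul_def]
          simp [mon])
        funext a
        have := h5 a
        exact_mod_cast this
      have h6 : ∀ᶠ t in (hyperfilter ℕ : Filter ℕ), ¬ aeval (z t) Q = 0 := by
        rw [Ultrafilter.eventually_not]
        intro h7
        apply h3
        have h8 := (P.ev_congr h2.1 (w := fun _ => 0) h7).1
        rw [h8]
        exact P.ev_zero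
      filter_upwards [h6] with t ht h4
      rw [hQ] at ht
      exact absurd h4 ht
  have h5 := (Filter.eventually_all_finite hfin).2 h1
  filter_upwards [h5] with t ht
  intro m hm hs
  exact ht m hm hs

end

set_option maxHeartbeats 4000000 in
theorem hrA (hPKG : Pool.Agent.H72.BF.T_PKG) (hROOT : Pool.Agent.H72.BF.T_ROOT) (hFOL : T_FOL)
    (hPOL : T_POL) : T_HRA := by
  classical
  intro hFIN n lam K halg hMI δ l c
  by_contra hcon
  push Not at hcon
  have h1 : ∀ t : ℕ, ∃ H : ℝ, 2 ≤ H ∧ ∃ A : Fin (n + 1) → Matrix (Fin l) (Fin c) ℂ,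
      (∀ k p j, AlgB δ H (A k p j)) ∧ SemiC K A ∧
      ∀ (m : ℕ) (I : Fin m → Fin l) (J : Fin m → Fin c), l * c ≤ m * (l + c) →
        H ^ ((t : ℝ) + 1) * ‖((MvC lam A).submatrix I J).det‖ < 1 := fun t =>
    hcon ((t : ℝ) + 1) (by positivity)
  choose Hs hHs As hAs hSemi hsmall using h1
  obtain ⟨H, hH⟩ : ∃ H : ℕ → ℝ, H = fun t => max (Hs t) ((t : ℝ) + 2) := ⟨_, rfl⟩
  have hH2 : ∀ t, 2 ≤ H t := fun t => by rw [hH]; exact (hHs t).trans (le_max_left _ _)
  have hHsH : ∀ t, Hs t ≤ H t := fun t => by rw [hH]; exact le_max_left _ _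
  have htH : ∀ t : ℕ, (t : ℝ) + 2 ≤ H t := fun t => by rw [hH]; exact le_max_right _ _
  obtain ⟨P⟩ := hPKG H hH2
  have hcof : ∀ {p : ℕ → Prop}, (∀ᶠ t in atTop, p t) → ∀ᶠ t in (hyperfilter ℕ : Filter ℕ), p t := by
    intro p hp
    exact Nat.hyperfilter_le_atTop hp
  -- the matrix over F
  have hAH : ∀ t k p j, AlgB δ (H t) (As t k p j) := fun t k p j =>
    algB_mono (hAs t k p j) (hHsH t)
  have hAO : ∀ k p j, (fun t => As t k p j) ∈ P.O := by
    intro k p j
    exact z_mem P (fun t (_ : Unit) => As t k p j) (fun t _ => hAH t k p j) hROOT ()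
  have hMO : ∀ p j, (fun t => MvC lam (As t) p j) ∈ P.O := by
    intro p j
    have e1 : (fun t => MvC lam (As t) p j) = (fun t => As t 0 p j) +
        ∑ k : Fin n, (fun _ => lam k) * (fun t => As t k.succ p j) := by
      funext t
      simp [MvC]
    rw [e1]
    exact P.O.add_mem (hAO 0 p j) (P.O.sum_mem fun k _ =>
      P.O.mul_mem (P.const_mem _) (hAO k.succ p j))
  obtain ⟨MF, hMF⟩ : ∃ MF : Fin l → Fin c → P.F, MF = fun p j => P.ev (fun t => MvC lam (As t) p j) :=
    ⟨_, rfl⟩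
  obtain ⟨w, I, hwc, hI, hrow⟩ := exists_rows MF
  obtain ⟨J0, hJ0⟩ := exists_minor _ hI
  -- the rank is small
  have hdetev : ∀ {m : ℕ} (I : Fin m → Fin l) (J : Fin m → Fin c),
      (fun t => ((MvC lam (As t)).submatrix I J).det) ∈ P.O ∧
      P.ev (fun t => ((MvC lam (As t)).submatrix I J).det) =
        (Matrix.of (fun x y => MF (I x) (J y))).det := by
    intro m I J
    have e1 : (fun t => ((MvC lam (As t)).submatrix I J).det) =
        ∑ s : Equiv.Perm (Fin m), (fun _ : ℕ => ((Equiv.Perm.sign s : ℤ) : ℂ)) *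
          ∏ i, (fun t => MvC lam (As t) (I (s i)) (J i)) := by
      funext t
      rw [Matrix.det_apply']
      simp [Finset.sum_apply, Finset.prod_apply]
    have hprod : ∀ s : Equiv.Perm (Fin m),
        (∏ i, (fun t => MvC lam (As t) (I (s i)) (J i))) ∈ P.O := fun s =>
      P.O.prod_mem fun i _ => hMO _ _
    rw [e1]
    refine ⟨P.O.sum_mem fun s _ => P.O.mul_mem (P.const_mem _) (hprod s), ?_⟩
    rw [P.ev_sum _ _ (fun s _ => P.O.mul_mem (P.const_mem _) (hprod s)), Matrix.det_apply']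
    refine Finset.sum_congr rfl fun s _ => ?_
    rw [P.ev_mul (P.const_mem _) (hprod s), P.ev_prod _ _ (fun i _ => hMO _ _)]
    congr 1
    · have := P.evZ_const (Equiv.Perm.sign s : ℤ)
      exact this
    · simp [hMF]
  have hrank : w * (l + c) < l * c := by
    by_contra hge
    push Not at hge
    apply hJ0
    rw [← (hdetev I J0).2, P.ev_eq_zero (hdetev I J0).1]
    intro e
    apply hcof
    -- (t+2)^e ≤ 2^t eventually
    have h2 : ∀ᶠ t : ℕ in atTop, ((t : ℝ) + 2) ^ e ≤ 2 ^ ((t : ℝ) + 1) := by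
      have h3 : Tendsto (fun t : ℕ => ((t : ℝ) + 2) ^ e / 2 ^ t) atTop (nhds 0) := by
        have h4 : Tendsto (fun m : ℕ => (m : ℝ) ^ e / 2 ^ m) atTop (nhds 0) :=
          tendsto_pow_const_div_const_pow_of_one_lt e (by norm_num)
        have h5 := (h4.comp (tendsto_add_atTop_nat 2)).mul_const (4 : ℝ)
        rw [zero_mul] at h5
        refine h5.congr fun t => ?_
        simp only [Function.comp]
        push_cast
        rw [pow_add]
        field_simp
        norm_num
      filter_upwards [h3.eventually (gt_mem_nhds (by norm_num : (0 : ℝ) < 1))] with t ht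
      rw [div_lt_one (by positivity)] at ht
      rw [Real.rpow_add (by norm_num), Real.rpow_natCast, Real.rpow_one]
      nlinarith [pow_pos (by norm_num : (0 : ℝ) < 2) t]
    filter_upwards [h2, eventually_ge_atTop e] with t ht hte
    have hs := hsmall t w I J0 hge
    have hpos : 0 < Hs t := by linarith [hHs t]
    have hx : 0 ≤ ‖((MvC lam (As t)).submatrix I J0).det‖ := norm_nonneg _
    have hle : H t ^ e ≤ Hs t ^ ((t : ℝ) + 1) := by
      rw [hH]
      simp only
      rcases le_total (Hs t) ((t : ℝ) + 2) with hc1 | hc1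
      · rw [max_eq_right hc1]
        refine ht.trans ?_
        exact Real.rpow_le_rpow (by norm_num) (hHs t) (by positivity)
      · rw [max_eq_left hc1, ← Real.rpow_natCast]
        refine Real.rpow_le_rpow_of_exponent_le (by linarith [hHs t]) ?_
        have : (e : ℝ) ≤ t := by exact_mod_cast hte
        linarith
    nlinarith [mul_le_mul_of_nonneg_left hle hx]
  have hlt : c * w < l * (c - w) := by
    have h3 : l * (c - w) + l * w = l * c := by
      rw [← Nat.mul_add]; congr 1; omega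
    nlinarith
  -- the monomials
  let ι := Fin (n + 1) × Fin l × Fin c
  obtain ⟨z, hz⟩ : ∃ z : ℕ → ι → ℂ, z = fun t x => As t x.1 x.2.1 x.2.2 := ⟨_, rfl⟩
  have hzH : ∀ t i, AlgB δ (H t) (z t i) := by
    intro t i
    rw [hz]
    exact hAH t _ _ _
  obtain ⟨be, hbe⟩ : ∃ be : ι → P.F, be = fun i => P.ev (fun t => z t i) := ⟨_, rfl⟩
  obtain ⟨D, hD⟩ := hFOL P.F ι be (c * w) (l * (c - w)) hlt
  obtain ⟨b1, hb10, hb1D, hb1li, hb1span, hb1card⟩ := exists_mon_basis be (D + 1)
  obtain ⟨b0, hb00, hb0D, hb0li, hb0span, hb0card⟩ := exists_mon_basis be D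
  -- structure constants
  have hstr : ∀ (k : Fin n) (p : Fin l) (a' : b0) (j : Fin c), ∃ y : b1 → ℚ,
      mon be a'.1 * be (k.succ, p, j) = ∑ a, y a • mon be a.1 := by
    intro k p a' j
    have h4 : mon be a'.1 * be (k.succ, p, j) ∈ ED be (D + 1) := by
      refine Submodule.subset_span ⟨a'.1 + Pi.single (k.succ, p, j) 1, ?_, ?_⟩
      · simp only [Pi.add_apply, Finset.sum_add_distrib]
        refine Nat.add_le_add (hb0D a'.1 a'.2) ?_
        simp
      · simp only [Pi.add_apply, pow_add, Finset.prod_mul_distrib, mon]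
        congr 1
        rw [Finset.prod_eq_single (k.succ, p, j)]
        · simp
        · intro x _ hx
          simp [hx]
        · simp
    rw [hb1span, Submodule.mem_span_range_iff_exists_fun] at h4
    obtain ⟨y, hy⟩ := h4
    exact ⟨y, hy.symm⟩
  choose y hy using hstr
  obtain ⟨m, yz, hm0, hyz⟩ := exists_common_den
    (fun x : Fin n × Fin l × b0 × Fin c × b1 => y x.1 x.2.1 x.2.2.1 x.2.2.2.1 x.2.2.2.2)
  -- coefficients b
  choose bF hbF using hrow
  have hlift : ∀ p x, ∃ (s : ℕ → ℂ) (e : ℕ), s ∈ P.O ∧ P.ev s = bF p x ∧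
      ∀ᶠ t in (hyperfilter ℕ : Filter ℕ), ‖s t‖ ≤ H t ^ e := by
    intro p x
    obtain ⟨s, hs, hs'⟩ := P.exists_ev (bF p x)
    obtain ⟨e, he⟩ := (P.memO s).1 hs
    exact ⟨s, e, hs, hs', he⟩
  choose bs be' hbs hbsev hbsb using hlift
  obtain ⟨δ', cP, hP⟩ := hPOL ι δ (D + 2)
  obtain ⟨e0, he0⟩ : ∃ e0 : ℕ, (∀ p x, be' p x ≤ e0) ∧ cP ≤ e0 := by
    refine ⟨(∑ p, ∑ x, be' p x) + cP, fun p x => ?_, by omega⟩
    have h4 : be' p x ≤ ∑ p, ∑ x, be' p x :=
      (Finset.single_le_sum (f := be' p) (fun _ _ => Nat.zero_le _) (Finset.mem_univ x)).trans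
        (Finset.single_le_sum (f := fun p => ∑ x, be' p x) (fun _ _ => Nat.zero_le _)
          (Finset.mem_univ p))
    omega
  -- apply the finite form
  obtain ⟨A0, C3, h0, hfin⟩ := hFIN n lam K halg hMI l c w δ' b0 b1 ⟨0, hb10⟩
    (fun k x x' => yz (k, x.1, x.2, x'.1, x'.2)) m e0 hm0 hwc (by
      rw [Fintype.card_coe, Fintype.card_coe, hb1card, hb0card]
      calc c * finrank ℚ (ED be (D + 1)) * w = c * w * finrank ℚ (ED be (D + 1)) := by ring
        _ < l * (c - w) * finrank ℚ (ED be D) := hD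
        _ = _ := by ring)
  obtain ⟨hs, hhs⟩ : ∃ hs : ℕ → ℕ, hs = fun t => ⌈Real.log (H t)⌉₊ := ⟨_, rfl⟩
  have hHexp : ∀ t, H t ≤ Real.exp (hs t) := fun t => by
    rw [hhs]; exact (log_ceil_bound _ (hH2 t)).1
  have hhslog : ∀ t, (hs t : ℝ) ≤ 3 * Real.log (H t) := fun t => by
    rw [hhs]; exact (log_ceil_bound _ (hH2 t)).2
  have hHpow : ∀ t (e : ℕ), e ≤ e0 → H t ^ e ≤ Real.exp ((e0 : ℝ) * hs t) := by
    intro t e he
    calc H t ^ e ≤ H t ^ e0 := pow_le_pow_right₀ (by linarith [hH2 t]) he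
      _ ≤ Real.exp (hs t) ^ e0 := pow_le_pow_left₀ (by linarith [hH2 t]) (hHexp t) _
      _ = _ := by rw [← Real.exp_nat_mul]
  -- eventually statements
  have E1 : ∀ᶠ t in (hyperfilter ℕ : Filter ℕ), h0 ≤ hs t := by
    apply hcof
    have h4 : Tendsto (fun t : ℕ => Real.log ((t : ℝ) + 2)) atTop atTop :=
      Real.tendsto_log_atTop.comp (tendsto_atTop_add_const_right _ _ tendsto_natCast_atTop_atTop)
    filter_upwards [h4.eventually_ge_atTop (h0 : ℝ)] with t ht
    rw [hhs]
    have h5 : (h0 : ℝ) ≤ Real.log (H t) :=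
      ht.trans (Real.log_le_log (by positivity) (htH t))
    exact_mod_cast h5.trans (Nat.le_ceil _)
  have E2 := ev_IndC P z hROOT hzH b0 (by rw [hbe] at hb0li; exact hb0li) A0
  have E3 := ev_IndC P z hROOT hzH b1 (by rw [hbe] at hb1li; exact hb1li) A0
  have hQm : ∀ (a : ι → ℕ) (t : ℕ), aeval (z t) (Qm a) = mon (z t) a := by
    intro a t
    rw [aeval_Qm]
    rfl
  have hQmF : ∀ (a : ι → ℕ), aeval (fun i => P.ev (fun t => z t i)) (Qm a) = mon be a := by
    intro a
    rw [aeval_Qm, hbe]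
    rfl
  have E4 : ∀ᶠ t in (hyperfilter ℕ : Filter ℕ), ∀ (k : Fin n) (p : Fin l) (a' : b0) (j : Fin c),
      m * mon (z t) a'.1 * As t k.succ p j =
        ∑ a, yz (k, p, a', j, a) * mon (z t) a.1 := by
    rw [Filter.eventually_all]; intro k
    rw [Filter.eventually_all]; intro p
    rw [Filter.eventually_all]; intro a'
    rw [Filter.eventually_all]; intro j
    obtain ⟨Q, hQ⟩ : ∃ Q : MvPolynomial ι ℤ, Q = C m * Qm a'.1 * X (k.succ, p, j) -
        ∑ a : b1, C (yz (k, p, a', j, a)) * Qm a.1 := ⟨_, rfl⟩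
    have hQdeg : Q.totalDegree ≤ D + 2 := by
      rw [hQ]
      refine (MvPolynomial.totalDegree_sub _ _).trans (max_le ?_ ?_)
      · refine (MvPolynomial.totalDegree_mul _ _).trans ?_
        have g1 : (C m * Qm a'.1 : MvPolynomial ι ℤ).totalDegree ≤ D := by
          refine (MvPolynomial.totalDegree_mul _ _).trans ?_
          rw [MvPolynomial.totalDegree_C, zero_add]
          exact (deg_Qm _).trans (hb0D a'.1 a'.2)
        have g2 : (X (k.succ, p, j) : MvPolynomial ι ℤ).totalDegree = 1 :=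
          MvPolynomial.totalDegree_X _
        omega
      · refine (MvPolynomial.totalDegree_finsetSum _ _).trans (Finset.sup_le fun a _ => ?_)
        refine (MvPolynomial.totalDegree_mul _ _).trans ?_
        rw [MvPolynomial.totalDegree_C, zero_add]
        have := (deg_Qm a.1).trans (hb1D a.1 a.2)
        omega
    have hQt : ∀ t, aeval (z t) Q = m * mon (z t) a'.1 * As t k.succ p j -
        ∑ a, yz (k, p, a', j, a) * mon (z t) a.1 := by
      intro t
      rw [hQ]
      simp only [map_sub, map_mul, map_sum, hQm, aeval_X, MvPolynomial.aeval_C]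
      simp [hz]
    have h0 : P.ev (fun t => aeval (z t) Q) = 0 := by
      rw [(aeval_mem P z hzH hROOT Q).2, hQ]
      simp only [map_sub, map_mul, map_sum, hQmF, aeval_X, MvPolynomial.aeval_C]
      rw [sub_eq_zero]
      have g3 := hy k p a' j
      have g4 : mon be a'.1 * P.ev (fun t => z t (k.succ, p, j)) =
          ∑ a, y k p a' j a • mon be a.1 := by
        rw [← g3, hbe]
      rw [mul_assoc, g4, Finset.mul_sum]
      refine Finset.sum_congr rfl fun a _ => ?_
      rw [Rat.smul_def, ← mul_assoc]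
      congr 1
      have := hyz (k, p, a', j, a)
      have g5 := congrArg (fun r : ℚ => (r : P.F)) this
      push_cast at g5
      simpa using g5
    filter_upwards [ev_zero_eventually P z hzH hROOT htH hP Q hQdeg h0] with t ht
    rw [hQt] at ht
    exact sub_eq_zero.1 ht
  have Ealg : ∀ Q : MvPolynomial ι ℤ, Q.totalDegree ≤ D + 2 →
      ∀ᶠ t in (hyperfilter ℕ : Filter ℕ), AlgB δ' (Real.exp ((e0 : ℝ) * hs t)) (aeval (z t) Q) := by
    intro Q hQ
    filter_upwards [aeval_alg z hzH P htH hP Q hQ] with t ht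
    exact algB_mono ht (hHpow t cP he0.2)
  have E7 : ∀ᶠ t in (hyperfilter ℕ : Filter ℕ), ∀ a : b0,
      AlgB δ' (Real.exp ((e0 : ℝ) * hs t)) (mon (z t) a.1) := by
    rw [Filter.eventually_all]; intro a
    have := Ealg (Qm a.1) ((deg_Qm a.1).trans ((hb0D a.1 a.2).trans (by omega)))
    simpa only [hQm] using this
  have E8 : ∀ᶠ t in (hyperfilter ℕ : Filter ℕ), ∀ a : b1,
      AlgB δ' (Real.exp ((e0 : ℝ) * hs t)) (mon (z t) a.1) := by
    rw [Filter.eventually_all]; intro a
    have := Ealg (Qm a.1) ((deg_Qm a.1).trans ((hb1D a.1 a.2).trans (by omega)))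
    simpa only [hQm] using this
  have E9 : ∀ᶠ t in (hyperfilter ℕ : Filter ℕ), ∀ (a : b0) (p : Fin l) (j : Fin c),
      AlgB δ' (Real.exp ((e0 : ℝ) * hs t)) (m * mon (z t) a.1 * As t 0 p j) := by
    rw [Filter.eventually_all]; intro a
    rw [Filter.eventually_all]; intro p
    rw [Filter.eventually_all]; intro j
    have hdeg : (C m * Qm a.1 * X (0, p, j) : MvPolynomial ι ℤ).totalDegree ≤ D + 2 := by
      refine (MvPolynomial.totalDegree_mul _ _).trans ?_
      have g1 : (C m * Qm a.1 : MvPolynomial ι ℤ).totalDegree ≤ D := by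
        refine (MvPolynomial.totalDegree_mul _ _).trans ?_
        rw [MvPolynomial.totalDegree_C, zero_add]
        exact (deg_Qm _).trans (hb0D a.1 a.2)
      have g2 : (X (0, p, j) : MvPolynomial ι ℤ).totalDegree = 1 :=
        MvPolynomial.totalDegree_X _
      omega
    have := Ealg _ hdeg
    filter_upwards [this] with t ht
    have e1 : aeval (z t) (C m * Qm a.1 * X (0, p, j) : MvPolynomial ι ℤ) =
        m * mon (z t) a.1 * As t 0 p j := by
      simp only [map_mul, hQm, aeval_X, MvPolynomial.aeval_C]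
      simp [hz]
    rwa [e1] at ht
  have E5 : ∀ᶠ t in (hyperfilter ℕ : Filter ℕ), ∀ (p : Fin l) (x : Fin w),
      ‖bs p x t‖ ≤ Real.exp ((e0 : ℝ) * hs t) := by
    rw [Filter.eventually_all]; intro p
    rw [Filter.eventually_all]; intro x
    filter_upwards [hbsb p x] with t ht
    exact ht.trans (hHpow t _ (he0.1 p x))
  have E6 : ∀ᶠ t in (hyperfilter ℕ : Filter ℕ), ∀ (p : Fin l) (j : Fin c),
      ‖MvC lam (As t) p j - ∑ x, bs p x t * MvC lam (As t) (I x) j‖ ≤
        Real.exp (-(C3 * hs t)) := by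
    rw [Filter.eventually_all]; intro p
    rw [Filter.eventually_all]; intro j
    have g1 : (∑ x, bs p x * (fun t => MvC lam (As t) (I x) j)) ∈ P.O :=
      P.O.sum_mem fun x _ => P.O.mul_mem (hbs p x) (hMO _ _)
    have g2 : P.ev ((fun t => MvC lam (As t) p j) - ∑ x, bs p x * (fun t => MvC lam (As t) (I x) j))
        = 0 := by
      rw [P.ev_sub (hMO p j) g1, P.ev_sum _ _ (fun x _ => P.O.mul_mem (hbs p x) (hMO _ _))]
      rw [sub_eq_zero]
      have g3 := congrFun (hbF p) j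
      rw [hMF] at g3
      simp only [Finset.sum_apply, Pi.smul_apply, smul_eq_mul] at g3
      rw [g3]
      refine Finset.sum_congr rfl fun x _ => ?_
      rw [P.ev_mul (hbs p x) (hMO _ _), hbsev]
    rw [P.ev_eq_zero (P.O.sub_mem (hMO p j) g1)] at g2
    have g4 := g2 ⌈3 * |C3|⌉₊
    filter_upwards [g4] with t ht
    have hHpos : 0 < H t := by linarith [hH2 t]
    have g5 : Real.exp (C3 * hs t) ≤ H t ^ ⌈3 * |C3|⌉₊ := by
      calc Real.exp (C3 * hs t) ≤ Real.exp (Real.log (H t) * (3 * |C3|)) := by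
            apply Real.exp_le_exp.2
            have g6 : C3 * hs t ≤ |C3| * hs t :=
              mul_le_mul_of_nonneg_right (le_abs_self _) (by positivity)
            nlinarith [hhslog t, abs_nonneg C3]
        _ = H t ^ (3 * |C3|) := by rw [Real.rpow_def_of_pos hHpos]
        _ ≤ H t ^ ((⌈3 * |C3|⌉₊ : ℕ) : ℝ) :=
            Real.rpow_le_rpow_of_exponent_le (by linarith [hH2 t]) (Nat.le_ceil _)
        _ = _ := Real.rpow_natCast _ _
    rw [Real.exp_neg, ← one_div, le_div_iff₀ (Real.exp_pos _)]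
    simp only [Pi.sub_apply, Finset.sum_apply, Pi.mul_apply] at ht
    exact (mul_le_mul_of_nonneg_left g5 (norm_nonneg _)).trans ht
  obtain ⟨t, h_1, h_2, h_3, h_4, h_5, h_6, h_7, h_8, h_9⟩ :=
    (E1.and (E2.and (E3.and (E4.and (E5.and (E6.and (E7.and (E8.and E9)))))))).exists
  refine hfin (hs t) h_1 (fun a => mon (z t) a.1) (fun a => mon (z t) a.1) (As t) ?_ h_2 h_3 h_7
    h_8 h_9 ?_ (hSemi t) I (fun p x => bs p x t) h_5 h_6
  · simp [mon]
  · intro k p a' j
    exact h_4 k p a' j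

end Pool.Agent.H72.HRA
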